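import Pool.Agent.H138R3.NORE.E1f

set_option autoImplicit false

/-! Task NORE-E1 of the project H354-NORE (helper138). -/

namespace Pool.Agent.H138R3.NORE

open Matrix

variable {k : Type} [Field k] {R : Type} [Ring R] [Algebra k R] {m n : ℕ}

def Zs (k : Type) [Field k] {R : Type} [Ring R] [Algebra k R] {m n : ℕ}
    (A : Matrix (Fin m) (Fin n) R) : Submodule k (Fin m → R) where
  carrier := {ρ | ρ ᵥ* A = 0}
  add_mem' := by
    intro a b ha hb
    show (a + b) ᵥ* A = 0
    rw [add_vecMul, show a ᵥ* A = 0 from ha, show b ᵥ* A = 0 from hb, add_zero]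
  zero_mem' := zero_vecMul _
  smul_mem' := by
    intro c a ha
    show (c • a) ᵥ* A = 0
    rw [smul_vecMul, show a ᵥ* A = 0 from ha, smul_zero]

def Cs (k : Type) [Field k] {R : Type} [Ring R] [Algebra k R] {m n : ℕ}
    (A : Matrix (Fin m) (Fin n) R) : Submodule k (Fin m → R) where
  carrier := {c | ∀ z : Fin m → R, z ᵥ* A = 0 → z ⬝ᵥ c = 0}
  add_mem' := by
    intro a b ha hb z hz
    rw [dotProduct_add, ha z hz, hb z hz, add_zero]
  zero_mem' := by intro z _; exact dotProduct_zero _
  smul_mem' := by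
    intro c a ha z hz
    rw [dotProduct_smul, ha z hz, smul_zero]

def Ks (k : Type) [Field k] {R : Type} [Ring R] [Algebra k R] {m n : ℕ}
    (A : Matrix (Fin m) (Fin n) R) : Submodule k (Matrix (Fin m) (Fin m) R) where
  carrier := {P | ∀ z : Fin m → R, z ᵥ* A = 0 → (z ᵥ* P) ᵥ* A = 0}
  add_mem' := by
    intro a b ha hb z hz
    rw [vecMul_add, add_vecMul, ha z hz, hb z hz, add_zero]
  zero_mem' := by intro z _; rw [vecMul_zero, zero_vecMul]
  smul_mem' := by
    intro c a ha z hz
    rw [vecMul_smul, smul_vecMul, ha z hz, smul_zero]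

theorem exists_section {E : Type} [AddCommGroup E] [Module k E] (W : Submodule k E) :
    ∃ s : (E ⧸ W) →ₗ[k] E, ∀ l, W.mkQ (s l) = l := by
  obtain ⟨g, hg⟩ := LinearMap.exists_rightInverse_of_surjective W.mkQ
    (LinearMap.range_eq_top.mpr W.mkQ_surjective)
  exact ⟨g, fun l => congrArg (fun f => f l) hg⟩

theorem exists_dat (A : Matrix (Fin m) (Fin n) R) : Nonempty (Dat k A) := by
  obtain ⟨sL, hsL⟩ := exists_section (Zs k A)
  obtain ⟨sN, hsN⟩ := exists_section (Cs k A)
  obtain ⟨sV, hsV⟩ := exists_section (Ks k A)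
  exact ⟨{
    L := (Fin m → R) ⧸ Zs k A
    N := (Fin m → R) ⧸ Cs k A
    V := (Matrix (Fin m) (Fin m) R) ⧸ Ks k A
    ι := Module.Basis.ofVectorSpaceIndex k ((Fin m → R) ⧸ Zs k A)
    β := Module.Basis.ofVectorSpaceIndex k ((Matrix (Fin m) (Fin m) R) ⧸ Ks k A)
    qL := (Zs k A).mkQ
    qN := (Cs k A).mkQ
    qV := (Ks k A).mkQ
    sL := sL
    sN := sN
    sV := sV
    qsL := hsL
    qsN := hsN
    qsV := hsV
    kL := fun ρ => by rw [Submodule.mkQ_apply, Submodule.Quotient.mk_eq_zero]; rfl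
    kN := fun ρ => by rw [Submodule.mkQ_apply, Submodule.Quotient.mk_eq_zero]; rfl
    kV := fun ρ => by rw [Submodule.mkQ_apply, Submodule.Quotient.mk_eq_zero]; rfl
    bL := Module.Basis.ofVectorSpace k _
    bV := Module.Basis.ofVectorSpace k _ }⟩

variable [IsDomain R] {A : Matrix (Fin m) (Fin n) R} (D : Dat k A)

theorem common_bound {t : ℕ} (μ : Fin t → Mo D) : ∃ d, ∀ j, μ j ∈ MDs D d := by
  classical
  choose d hd using fun j => exists_bound D (μ j)
  exact ⟨Finset.univ.sup d, fun j => MDs_mono D (Finset.le_sup (Finset.mem_univ j)) _ (hd j)⟩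

noncomputable instance instR : Ring (Sal D) :=
  @Subalgebra.toRing k (Module.End k (Mo D)) _ _ _ (Sal D)

instance instDom : IsDomain (Sal D) := by
  haveI : Nontrivial (Sal D) := by
    refine ⟨⟨0, 1, ?_⟩⟩
    intro h
    have h1 : (0 : Module.End k (Mo D)) = 1 := congrArg Subtype.val h
    have h2 := congrArg (fun f => f ((1, 0) : Mo D)) h1
    exact one_ne D h2.symm
  haveI : NoZeroDivisors (Sal D) := by
    refine ⟨?_⟩
    intro a b hab
    by_contra hcon
    push Not at hcon
    refine Sal_mul_ne D a.1 b.1 a.2 b.2 ?_ ?_ (congrArg Subtype.val hab)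
    · intro h; exact hcon.1 (Subtype.ext h)
    · intro h; exact hcon.2 (Subtype.ext h)
  exact NoZeroDivisors.to_isDomain (Sal D)

/-- the embedding of `R` -/
noncomputable def phi : R →ₐ[k] Sal D := (lm D).codRestrict (Sal D) (lm_mem D)

/-- the idempotent -/
noncomputable def eM : Matrix (Fin m) (Fin m) (Sal D) := fun p q => ⟨ee D p q, ee_mem D p q⟩

theorem phi_val (r : R) : ((phi D r : Sal D) : Module.End k (Mo D)) = lm D r := rfl

theorem sum_val {ι : Type} (s : Finset ι) (f : ι → Sal D) :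
    ((∑ i ∈ s, f i : Sal D) : Module.End k (Mo D)) = ∑ i ∈ s, (f i : Module.End k (Mo D)) := by
  exact map_sum (Sal D).val f s

theorem pres_S {s t : ℕ} (B : Matrix (Fin s) (Fin t) R) (g : Matrix (Fin t) (Fin t) R)
    (hBg : B * g = 0) (hg : ∀ y : Fin t → R, B *ᵥ y = 0 → g *ᵥ y = y) (y : Fin t → Sal D)
    (hy : B.map (phi D) *ᵥ y = 0) : g.map (phi D) *ᵥ y = y := by
  have hgg : g * g = g := by
    ext i c
    have h1 : B *ᵥ (fun j => g j c) = 0 := by
      ext i'
      exact congrFun (congrFun hBg i') c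
    exact congrFun (hg _ h1) i
  have hBg' : B.map (phi D) * g.map (phi D) = 0 := by
    rw [← Matrix.map_mul, hBg]
    refine Matrix.ext (fun i j => ?_)
    rw [Matrix.map_apply, Matrix.zero_apply, Matrix.zero_apply, map_zero]
  have hgg' : g.map (phi D) * g.map (phi D) = g.map (phi D) := by
    rw [← Matrix.map_mul, hgg]
  set y' : Fin t → Sal D := y - g.map (phi D) *ᵥ y with hy'
  have h1 : B.map (phi D) *ᵥ y' = 0 := by
    rw [hy', mulVec_sub, hy, mulVec_mulVec, hBg', zero_mulVec, sub_zero]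
  have h2 : g.map (phi D) *ᵥ y' = 0 := by
    rw [hy', mulVec_sub, mulVec_mulVec, hgg', sub_self]
  have hex : ∀ j, ∃ μ : Mo D, Ps D μ = (y' j : Module.End k (Mo D)) :=
    fun j => exists_Ps D _ (y' j).2
  choose μ hμ using hex
  obtain ⟨d, hd⟩ := common_bound D μ
  have h3 := pres D B g hg d μ hd
    (by
      intro i
      have h4 := congrArg (Subtype.val) (congrFun h1 i)
      simp only [mulVec, dotProduct, Matrix.map_apply, sum_val] at h4
      rw [show ((0 : Fin s → Sal D) i : Module.End k (Mo D)) = 0 from rfl] at h4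
      rw [← h4]
      apply Finset.sum_congr rfl
      intro j _
      rw [hμ j]
      rfl)
    (by
      intro i
      have h4 := congrArg (Subtype.val) (congrFun h2 i)
      simp only [mulVec, dotProduct, Matrix.map_apply, sum_val] at h4
      rw [show ((0 : Fin t → Sal D) i : Module.End k (Mo D)) = 0 from rfl] at h4
      rw [← h4]
      apply Finset.sum_congr rfl
      intro j _
      rw [hμ j]
      rfl)
  have h5 : y' = 0 := by
    ext1 j
    apply Subtype.ext
    rw [← hμ j, h3 j, map_zero]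
    rfl
  rw [hy', sub_eq_zero] at h5
  exact h5.symm

theorem ker_S (ρ : Fin m → Sal D) (hρ : ρ ᵥ* A.map (phi D) = 0) : ρ ᵥ* eM D = ρ := by
  have hex : ∀ j, ∃ μ : Mo D, Ps D μ = (ρ j : Module.End k (Mo D)) :=
    fun j => exists_Ps D _ (ρ j).2
  choose μ hμ using hex
  obtain ⟨d, hd⟩ := common_bound D μ
  have h3 := ker_left D d μ hd
    (by
      intro i
      have h4 := congrArg (Subtype.val) (congrFun hρ i)
      simp only [vecMul, dotProduct, Matrix.map_apply, sum_val] at h4
      rw [show ((0 : Fin n → Sal D) i : Module.End k (Mo D)) = 0 from rfl] at h4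
      rw [← h4]
      apply Finset.sum_congr rfl
      intro j _
      rw [hμ j]
      rfl)
  ext1 q
  apply Subtype.ext
  rw [← hμ q, ← h3 q]
  simp only [vecMul, dotProduct, sum_val]
  apply Finset.sum_congr rfl
  intro j _
  rw [hμ j]
  rfl

theorem taskE1 (k : Type) [Field k] : H354P.TaskE1 k := by
  intro R _ _ _ m n A
  obtain ⟨D⟩ := exists_dat (k := k) A
  refine ⟨Sal D, inferInstance, inferInstance, instDom D, phi D, eM D, ?_, ?_, ?_, ?_⟩
  · intro r s h
    have h1 : lm D r = lm D s := congrArg Subtype.val h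
    rw [← sub_eq_zero]
    apply lm_inj D
    rw [map_sub, h1, sub_self]
  · refine Matrix.ext (fun q j => ?_)
    have h1 := eA D q j
    rw [Matrix.mul_apply]
    have h2 : (∑ p, eM D q p * A.map (phi D) p j : Sal D) = 0 := by
      apply Subtype.ext
      rw [sum_val]
      exact h1
    rw [h2]
    rfl
  · intro ρ hρ
    exact ker_S D ρ hρ
  · intro s t B g hBg hg y hy
    exact pres_S D B g hBg hg y hy

end Pool.Agent.H138R3.NORE
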