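import Pool.Agent.H354.NORE.Stmts

set_option autoImplicit false

/-! Task NORE-E1 of the project H354-NORE (helper138): splitting of the left kernel of a matrix. -/

namespace Pool.Agent.H138R3.NORE

open Matrix

/-- the vector spaces `R^m / Z`, `R^m / C`, `M_m(R) / K` with sections and bases -/
structure Dat (k : Type) [Field k] {R : Type} [Ring R] [Algebra k R] {m n : ℕ}
    (A : Matrix (Fin m) (Fin n) R) where
  L : Type
  N : Type
  V : Type
  ι : Type
  β : Type
  [iL : AddCommGroup L] [jL : Module k L]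
  [iN : AddCommGroup N] [jN : Module k N]
  [iV : AddCommGroup V] [jV : Module k V]
  qL : (Fin m → R) →ₗ[k] L
  qN : (Fin m → R) →ₗ[k] N
  qV : Matrix (Fin m) (Fin m) R →ₗ[k] V
  sL : L →ₗ[k] (Fin m → R)
  sN : N →ₗ[k] (Fin m → R)
  sV : V →ₗ[k] Matrix (Fin m) (Fin m) R
  qsL : ∀ l, qL (sL l) = l
  qsN : ∀ l, qN (sN l) = l
  qsV : ∀ l, qV (sV l) = l
  kL : ∀ ρ, qL ρ = 0 ↔ ρ ᵥ* A = 0
  kN : ∀ c, qN c = 0 ↔ ∀ z : Fin m → R, z ᵥ* A = 0 → z ⬝ᵥ c = 0
  kV : ∀ P, qV P = 0 ↔ ∀ z : Fin m → R, z ᵥ* A = 0 → (z ᵥ* P) ᵥ* A = 0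
  bL : Module.Basis ι k L
  bV : Module.Basis β k V

attribute [instance] Dat.iL Dat.jL Dat.iN Dat.jN Dat.iV Dat.jV

variable {k : Type} [Field k] {R : Type} [Ring R] [Algebra k R] {m n : ℕ}
  {A : Matrix (Fin m) (Fin n) R} (D : Dat k A)

abbrev T : Type := List D.β →₀ D.N
abbrev Mo : Type := R × (D.ι →₀ T D)

noncomputable def cons (b : D.β) : T D →ₗ[k] T D := Finsupp.lmapDomain D.N k (List.cons b)
noncomputable def curly : D.V →ₗ[k] T D →ₗ[k] T D := D.bV.constr k (cons D)
noncomputable def br : D.L →ₗ[k] T D →ₗ[k] (D.ι →₀ T D) :=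
  D.bL.constr k (fun i => Finsupp.lsingle i)

theorem curly_basis (b : D.β) : curly D (D.bV b) = cons D b := D.bV.constr_basis k _ b
theorem br_basis (i : D.ι) (t : T D) : br D (D.bL i) t = Finsupp.single i t := by
  rw [br, D.bL.constr_basis]; rfl

theorem cons_single (b : D.β) (w : List D.β) (x : D.N) :
    cons D b (Finsupp.single w x) = Finsupp.single (b :: w) x := by
  simp [cons]

theorem cons_apply (b b' : D.β) (w : List D.β) (t : T D) [Decidable (b = b')] :
    cons D b t (b' :: w) = if b = b' then t w else 0 := by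
  rw [cons, Finsupp.lmapDomain_apply]
  split_ifs with h
  · subst h
    exact Finsupp.mapDomain_apply (List.cons_injective) t w
  · apply Finsupp.mapDomain_of_notMem_range
    rintro ⟨x, hx⟩
    exact h (List.cons.inj hx).1

theorem cons_nil (b : D.β) (t : T D) : cons D b t [] = 0 := by
  rw [cons, Finsupp.lmapDomain_apply]
  apply Finsupp.mapDomain_of_notMem_range
  rintro ⟨x, hx⟩
  exact absurd hx (by simp)

theorem curly_apply (v : D.V) (t : T D) (b : D.β) (w : List D.β) :
    curly D v t (b :: w) = D.bV.repr v b • t w := by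
  classical
  have h : (Finsupp.lapply (R := k) (M := D.N) (b :: w)) ∘ₗ ((curly D).flip t) =
      (LinearMap.toSpanSingleton k D.N (t w)) ∘ₗ (Finsupp.lapply b) ∘ₗ
        (D.bV.repr : D.V →ₗ[k] (D.β →₀ k)) := by
    apply D.bV.ext
    intro b'
    simp only [LinearMap.comp_apply, LinearMap.flip_apply, curly_basis, Finsupp.lapply_apply,
      cons_apply]
    simp only [LinearEquiv.coe_coe, Module.Basis.repr_self, LinearMap.toSpanSingleton_apply,
      Finsupp.single_apply]
    split_ifs <;> simp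
  exact congrArg (fun f => f v) h

theorem curly_nil (v : D.V) (t : T D) : curly D v t [] = 0 := by
  have h : (Finsupp.lapply (R := k) (M := D.N) ([] : List D.β)) ∘ₗ ((curly D).flip t) = 0 := by
    apply D.bV.ext
    intro b'
    simp only [LinearMap.comp_apply, LinearMap.flip_apply, curly_basis, Finsupp.lapply_apply,
      cons_nil, LinearMap.zero_apply]
  exact congrArg (fun f => f v) h

theorem br_apply (l : D.L) (t : T D) (i : D.ι) : br D l t i = D.bL.repr l i • t := by
  classical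
  have h : (Finsupp.lapply (R := k) (M := T D) i) ∘ₗ ((br D).flip t) =
      (LinearMap.toSpanSingleton k (T D) t) ∘ₗ (Finsupp.lapply i) ∘ₗ
        (D.bL.repr : D.L →ₗ[k] (D.ι →₀ k)) := by
    apply D.bL.ext
    intro b'
    simp only [LinearMap.comp_apply, LinearMap.flip_apply, br_basis, Finsupp.lapply_apply]
    simp only [LinearEquiv.coe_coe, Module.Basis.repr_self, LinearMap.toSpanSingleton_apply,
      Finsupp.single_apply]
    split_ifs <;> simp
  exact congrArg (fun f => f l) h

theorem lsum_br {X : Type} [AddCommGroup X] [Module k X] (F : D.L →ₗ[k] T D →ₗ[k] X)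
    (l : D.L) (t : T D) : Finsupp.lsum k (fun i => F (D.bL i)) (br D l t) = F l t := by
  have h : (Finsupp.lsum k (fun i => F (D.bL i))) ∘ₗ ((br D).flip t) = F.flip t := by
    apply D.bL.ext
    intro i
    simp [br_basis]
  exact congrArg (fun f => f l) h

/-- linear maps out of `T = N ⊕ V ⊗ T` -/
noncomputable def elimT {X : Type} [AddCommGroup X] [Module k X] (G : D.N →ₗ[k] X)
    (H : D.V →ₗ[k] T D →ₗ[k] X) : T D →ₗ[k] X :=
  Finsupp.lsum k (fun w : List D.β => match w with
    | [] => G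
    | b :: w' => (H (D.bV b)) ∘ₗ (Finsupp.lsingle w'))

theorem elimT_nil {X : Type} [AddCommGroup X] [Module k X] (G : D.N →ₗ[k] X)
    (H : D.V →ₗ[k] T D →ₗ[k] X) (x : D.N) : elimT D G H (Finsupp.single [] x) = G x := by
  simp [elimT]

theorem elimT_curly {X : Type} [AddCommGroup X] [Module k X] (G : D.N →ₗ[k] X)
    (H : D.V →ₗ[k] T D →ₗ[k] X) (v : D.V) (t : T D) : elimT D G H (curly D v t) = H v t := by
  have h : (curly D).compr₂ (elimT D G H) = H := by
    apply D.bV.ext
    intro b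
    apply Finsupp.lhom_ext
    intro w x
    rw [LinearMap.compr₂_apply, curly_basis, cons_single, elimT, Finsupp.lsum_single]
    rfl
  exact congrArg (fun f => f v t) h

theorem T_ext {X : Type} [AddCommGroup X] [Module k X] (f g : T D →ₗ[k] X)
    (h0 : ∀ x, f (Finsupp.single [] x) = g (Finsupp.single [] x))
    (h1 : ∀ b t, f (curly D (D.bV b) t) = g (curly D (D.bV b) t)) : f = g := by
  apply Finsupp.lhom_ext
  intro w x
  cases w with
  | nil => exact h0 x
  | cons b w =>
    rw [← cons_single, ← curly_basis]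
    exact h1 b _

theorem M_ext {X : Type} [AddCommGroup X] [Module k X] (f g : Mo D →ₗ[k] X)
    (h0 : ∀ r, f (r, 0) = g (r, 0))
    (h1 : ∀ i t, f (0, br D (D.bL i) t) = g (0, br D (D.bL i) t)) : f = g := by
  apply LinearMap.prod_ext
  · ext r
    exact h0 r
  · apply Finsupp.lhom_ext
    intro i t
    have := h1 i t
    rw [br_basis] at this
    exact this

/-! ### the products -/

noncomputable def junc : D.N →ₗ[k] D.L →ₗ[k] D.V :=
  LinearMap.mk₂ k (fun x l => D.qV (vecMulVec (D.sN x) (D.sL l)))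
    (fun x y l => by rw [map_add, add_vecMulVec, map_add])
    (fun c x l => by rw [map_smul, smul_vecMulVec, map_smul])
    (fun x l l' => by rw [map_add, vecMulVec_add, map_add])
    (fun c x l => by rw [map_smul, vecMulVec_smul, map_smul])

noncomputable def rm : D.N →ₗ[k] R →ₗ[k] D.N :=
  LinearMap.mk₂ k (fun x r => D.qN (fun i => D.sN x i * r))
    (fun x y r => by rw [← map_add]; congr 1; ext i; simp [add_mul])
    (fun c x r => by rw [← map_smul]; congr 1; ext i; simp)
    (fun x r r' => by rw [← map_add]; congr 1; ext i; simp [mul_add])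
    (fun c x r => by rw [← map_smul]; congr 1; ext i; simp)

noncomputable def lml : R →ₗ[k] D.L →ₗ[k] D.L :=
  LinearMap.mk₂ k (fun r l => D.qL (r • D.sL l))
    (fun x y r => by rw [add_smul, map_add])
    (fun c x r => by rw [smul_assoc, map_smul])
    (fun x r r' => by rw [map_add D.sL, smul_add, map_add])
    (fun c x r => by rw [map_smul D.sL, smul_comm, map_smul])

theorem qL_eq {ρ ρ' : Fin m → R} (h : (ρ - ρ') ᵥ* A = 0) : D.qL ρ = D.qL ρ' := by
  rw [← sub_eq_zero, ← map_sub, D.kL]; exact h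

theorem sLq (ρ : Fin m → R) : (D.sL (D.qL ρ) - ρ) ᵥ* A = 0 := by
  rw [← D.kL, map_sub, D.qsL, sub_self]

theorem sNq (c z : Fin m → R) (hz : z ᵥ* A = 0) : z ⬝ᵥ (D.sN (D.qN c) - c) = 0 := by
  have : D.qN (D.sN (D.qN c) - c) = 0 := by rw [map_sub, D.qsN, sub_self]
  exact (D.kN _).mp this z hz

theorem sVq (P : Matrix (Fin m) (Fin m) R) (z : Fin m → R) (hz : z ᵥ* A = 0) :
    (z ᵥ* (D.sV (D.qV P) - P)) ᵥ* A = 0 := by
  have : D.qV (D.sV (D.qV P) - P) = 0 := by rw [map_sub, D.qsV, sub_self]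
  exact (D.kV _).mp this z hz

theorem vecMul_vecMulVec' (z c ρ : Fin m → R) : z ᵥ* vecMulVec c ρ = (z ⬝ᵥ c) • ρ := by
  ext j
  simp only [vecMul, dotProduct, vecMulVec_apply, Pi.smul_apply, smul_eq_mul, Finset.sum_mul,
    mul_assoc]

theorem junc_q (c ρ : Fin m → R) : junc D (D.qN c) (D.qL ρ) = D.qV (vecMulVec c ρ) := by
  rw [← sub_eq_zero]
  show D.qV _ - _ = 0
  rw [← map_sub, D.kV]
  intro z hz
  have h1 := sNq D c z hz
  have h2 := sLq D ρ
  rw [dotProduct_sub, sub_eq_zero] at h1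
  rw [sub_vecMul, sub_eq_zero] at h2
  rw [vecMul_sub, vecMul_vecMulVec', vecMul_vecMulVec', h1, sub_vecMul, smul_vecMul,
    smul_vecMul, h2, sub_self]

theorem rm_q (c : Fin m → R) (r : R) : rm D (D.qN c) r = D.qN (fun i => c i * r) := by
  rw [← sub_eq_zero]
  show D.qN _ - _ = 0
  rw [← map_sub, D.kN]
  intro z hz
  have h1 := sNq D c z hz
  have : z ⬝ᵥ ((fun i => D.sN (D.qN c) i * r) - fun i => c i * r) =
      (z ⬝ᵥ (D.sN (D.qN c) - c)) * r := by
    simp only [dotProduct, Pi.sub_apply, Finset.sum_mul, mul_sub, sub_mul, mul_assoc]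
  rw [this, h1, zero_mul]

theorem lml_q (r : R) (ρ : Fin m → R) : lml D r (D.qL ρ) = D.qL (r • ρ) := by
  apply qL_eq
  rw [← smul_sub, smul_vecMul, sLq, smul_zero]

end Pool.Agent.H138R3.NORE
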