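import Pool.Agent.H138R3.NORE.E1a

set_option autoImplicit false

namespace Pool.Agent.H138R3.NORE

open Matrix

variable {k : Type} [Field k] {R : Type} [Ring R] [Algebra k R] {m n : ℕ}
  {A : Matrix (Fin m) (Fin n) R} (D : Dat k A)

/-- `K`: the matrices mapping `Z` to `Z` -/
def InK {R : Type} [Ring R] {m n : ℕ} (A : Matrix (Fin m) (Fin n) R)
    (P : Matrix (Fin m) (Fin m) R) : Prop :=
  ∀ z : Fin m → R, z ᵥ* A = 0 → (z ᵥ* P) ᵥ* A = 0

noncomputable def act0 (x : D.N) : Mo D →ₗ[k] T D :=
  (Finsupp.lsingle [] ∘ₗ rm D x ∘ₗ LinearMap.fst k R (D.ι →₀ T D)) +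
      (Finsupp.lsum k (fun i => curly D (junc D x (D.bL i)))) ∘ₗ LinearMap.snd k R (D.ι →₀ T D)

theorem act0_r (x : D.N) (r : R) : act0 D x (r, 0) = Finsupp.single [] (rm D x r) := by
  simp [act0]

theorem act0_br (x : D.N) (l : D.L) (t : T D) :
    act0 D x (0, br D l t) = curly D (junc D x l) t := by
  have h := lsum_br D ((curly D) ∘ₗ (junc D x)) l t
  simp only [act0, LinearMap.add_apply, LinearMap.comp_apply, LinearMap.fst_apply,
    LinearMap.snd_apply, map_zero, zero_add]
  exact h

noncomputable def act : D.N →ₗ[k] Mo D →ₗ[k] T D where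
  toFun := act0 D
  map_add' x y := by
    apply M_ext
    · intro r; simp [act0_r]
    · intro i t
      rw [LinearMap.add_apply, act0_br, act0_br, act0_br, map_add, LinearMap.add_apply, map_add,
        LinearMap.add_apply]
  map_smul' c x := by
    apply M_ext
    · intro r; simp [act0_r]
    · intro i t
      rw [RingHom.id_apply, LinearMap.smul_apply, act0_br, act0_br, map_smul,
        LinearMap.smul_apply, map_smul, LinearMap.smul_apply]

theorem act_r (x : D.N) (r : R) : act D x (r, 0) = Finsupp.single [] (rm D x r) := act0_r D x r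

theorem act_br (x : D.N) (l : D.L) (t : T D) :
    act D x (0, br D l t) = curly D (junc D x l) t := act0_br D x l t

noncomputable def lm0 (r : R) : Mo D →ₗ[k] Mo D :=
  LinearMap.prodMap (LinearMap.mulLeft k r) (Finsupp.lsum k (fun i => br D (lml D r (D.bL i))))

theorem lm0_r (r r' : R) : lm0 D r (r', 0) = (r * r', 0) := by
  simp [lm0]

theorem lm0_br (r : R) (l : D.L) (t : T D) : lm0 D r (0, br D l t) = (0, br D (lml D r l) t) := by
  have h := lsum_br D ((br D) ∘ₗ (lml D r)) l t
  simp only [lm0, LinearMap.prodMap_apply, map_zero]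
  exact congrArg (fun y => ((0 : R), y)) h

theorem lml_one (l : D.L) : lml D 1 l = l := by
  show D.qL (1 • D.sL l) = l
  rw [one_smul, D.qsL]

theorem lml_mul (r s : R) (l : D.L) : lml D (r * s) l = lml D r (lml D s l) := by
  show D.qL ((r * s) • D.sL l) = lml D r (D.qL (s • D.sL l))
  rw [lml_q, mul_smul]

theorem lml_alg (c : k) (l : D.L) : lml D (algebraMap k R c) l = c • l := by
  show D.qL (algebraMap k R c • D.sL l) = _
  rw [algebraMap_smul, map_smul, D.qsL]

noncomputable def lm : R →ₐ[k] Module.End k (Mo D) where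
  toFun := lm0 D
  map_one' := by
    apply M_ext
    · intro r; rw [lm0_r, one_mul]; rfl
    · intro i t; rw [lm0_br, lml_one]; rfl
  map_mul' r s := by
    apply M_ext
    · intro r'
      rw [lm0_r, Module.End.mul_apply, lm0_r, lm0_r, mul_assoc]
    · intro i t
      rw [lm0_br, Module.End.mul_apply, lm0_br, lm0_br, lml_mul]
  map_zero' := by
    apply M_ext
    · intro r'
      rw [lm0_r, zero_mul]; rfl
    · intro i t
      rw [lm0_br, map_zero, LinearMap.zero_apply, map_zero]; rfl
  map_add' r s := by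
    apply M_ext
    · intro r'
      rw [LinearMap.add_apply, lm0_r, lm0_r, lm0_r, add_mul]; simp
    · intro i t
      rw [LinearMap.add_apply, lm0_br, lm0_br, lm0_br, map_add, LinearMap.add_apply, map_add]
      simp
  commutes' c := by
    apply M_ext
    · intro r'
      rw [lm0_r, Module.algebraMap_end_apply, ← Algebra.smul_def]; simp
    · intro i t
      rw [lm0_br, Module.algebraMap_end_apply, lml_alg, map_smul]; simp

theorem lm_r (r r' : R) : lm D r (r', 0) = (r * r', 0) := lm0_r D r r'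

theorem lm_br (r : R) (l : D.L) (t : T D) : lm D r (0, br D l t) = (0, br D (lml D r l) t) :=
  lm0_br D r l t

/-- degree zero section -/
noncomputable def s0 (p : Fin m) : T D →ₗ[k] Mo D :=
  elimT D (LinearMap.inl k R (D.ι →₀ T D) ∘ₗ LinearMap.proj p ∘ₗ D.sN)
    (LinearMap.mk₂ k (fun v t => ((0 : R), br D (D.qL (D.sV v p)) t))
      (fun v w t => by
        have : (D.sV (v + w)) p = D.sV v p + D.sV w p := by rw [map_add]; rfl
        rw [this, map_add, map_add]; simp)
      (fun c v t => by
        have : (D.sV (c • v)) p = c • D.sV v p := by rw [map_smul]; rfl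
        rw [this, map_smul, map_smul]; simp)
      (fun v t t' => by rw [map_add]; simp)
      (fun c v t => by rw [map_smul]; simp))

noncomputable def s1 (p : Fin m) : T D →ₗ[k] Mo D :=
  LinearMap.inr k R (D.ι →₀ T D) ∘ₗ br D (D.qL (Pi.single p 1))

noncomputable def sg (p : Fin m) : T D →ₗ[k] Mo D := s0 D p + s1 D p

theorem s0_nil (p : Fin m) (x : D.N) : s0 D p (Finsupp.single [] x) = (D.sN x p, 0) := by
  rw [s0, elimT_nil]; rfl

theorem s0_curly (p : Fin m) (v : D.V) (t : T D) :
    s0 D p (curly D v t) = (0, br D (D.qL (D.sV v p)) t) := by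
  rw [s0, elimT_curly]; rfl

theorem s1_apply (p : Fin m) (t : T D) : s1 D p t = (0, br D (D.qL (Pi.single p 1)) t) := rfl

noncomputable def PS : Matrix (Fin m) (Fin m) R →ₗ[k] (T D →ₗ[k] T D) where
  toFun P := ∑ q, act D (D.qN (fun i => P i q)) ∘ₗ sg D q
  map_add' P Q := by
    rw [← Finset.sum_add_distrib]
    apply Finset.sum_congr rfl
    intro q _
    have : (fun i => (P + Q) i q) = (fun i => P i q) + (fun i => Q i q) := rfl
    rw [this, map_add, map_add, LinearMap.add_comp]
  map_smul' c P := by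
    rw [RingHom.id_apply, Finset.smul_sum]
    apply Finset.sum_congr rfl
    intro q _
    have : (fun i => (c • P) i q) = c • (fun i => P i q) := rfl
    rw [this, map_smul, map_smul, LinearMap.smul_comp]

theorem PS_eq (P : Matrix (Fin m) (Fin m) R) :
    PS D P = ∑ q, act D (D.qN (fun i => P i q)) ∘ₗ sg D q := rfl

noncomputable def RS : (Fin m → R) →ₗ[k] (T D →ₗ[k] Mo D) where
  toFun ρ := ∑ q, (lm D (ρ q) : Mo D →ₗ[k] Mo D) ∘ₗ sg D q
  map_add' P Q := by
    rw [← Finset.sum_add_distrib]
    apply Finset.sum_congr rfl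
    intro q _
    rw [Pi.add_apply, map_add, LinearMap.add_comp]
  map_smul' c P := by
    rw [RingHom.id_apply, Finset.smul_sum]
    apply Finset.sum_congr rfl
    intro q _
    rw [Pi.smul_apply, map_smul, LinearMap.smul_comp]

theorem RS_eq (ρ : Fin m → R) : RS D ρ = ∑ q, (lm D (ρ q) : Mo D →ₗ[k] Mo D) ∘ₗ sg D q := rfl

noncomputable def err (P : Matrix (Fin m) (Fin m) R) : T D →ₗ[k] T D :=
  ∑ q, act D (D.qN (fun i => P i q)) ∘ₗ s0 D q

theorem sum_cols (P : Matrix (Fin m) (Fin m) R) :
    ∑ q, vecMulVec (fun i => P i q) (Pi.single q (1 : R)) = P := by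
  ext i j
  rw [Matrix.sum_apply]
  simp [vecMulVec_apply, Pi.single_apply]

theorem sum_rows (P : Matrix (Fin m) (Fin m) R) :
    ∑ q, vecMulVec (Pi.single q (1 : R)) (P q) = P := by
  ext i j
  rw [Matrix.sum_apply]
  simp [vecMulVec_apply, Pi.single_apply]

theorem PS_err (P : Matrix (Fin m) (Fin m) R) : PS D P = err D P + curly D (D.qV P) := by
  rw [PS_eq, err]
  simp only [sg, LinearMap.comp_add, Finset.sum_add_distrib]
  congr 1
  refine LinearMap.ext (fun t => ?_)
  rw [LinearMap.sum_apply]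
  simp only [LinearMap.comp_apply, s1_apply, act_br, junc_q]
  rw [← LinearMap.sum_apply, ← map_sum, ← map_sum, sum_cols]

theorem err_one : err D (1 : Matrix (Fin m) (Fin m) R) = LinearMap.id := by
  have e : ∀ q : Fin m, (fun i => (1 : Matrix (Fin m) (Fin m) R) i q) = Pi.single q (1 : R) := by
    intro q; ext i; rw [Matrix.one_apply, Pi.single_apply]
  apply T_ext
  · intro x
    rw [err, LinearMap.sum_apply]
    simp only [LinearMap.comp_apply, s0_nil, act_r, e, rm_q]
    rw [← Finsupp.single_finsetSum, ← map_sum]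
    have : ∑ q, (fun i => (Pi.single q (1 : R) : Fin m → R) i * D.sN x q) = D.sN x := by
      ext i
      rw [Finset.sum_apply]
      simp [Pi.single_apply]
    rw [this, D.qsN]; rfl
  · intro b t
    rw [err, LinearMap.sum_apply]
    simp only [LinearMap.comp_apply, s0_curly, act_br, e, junc_q]
    rw [← LinearMap.sum_apply, ← map_sum, ← map_sum, sum_rows, D.qsV]; rfl

theorem PS_one : PS D (1 : Matrix (Fin m) (Fin m) R) = LinearMap.id := by
  rw [PS_err, err_one]
  have : D.qV 1 = 0 := by
    rw [D.kV]; intro z hz; rw [vecMul_one]; exact hz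
  rw [this, map_zero, add_zero]

noncomputable def gP (P : Matrix (Fin m) (Fin m) R) : T D →ₗ[k] T D :=
  elimT D (Finsupp.lsingle [] ∘ₗ D.qN ∘ₗ
      { toFun := fun x => P *ᵥ D.sN x
        map_add' := fun x y => by rw [map_add, mulVec_add]
        map_smul' := fun c x => by rw [map_smul, mulVec_smul]; rfl })
    (LinearMap.mk₂ k (fun v t => curly D (D.qV (P * D.sV v)) t)
      (fun v w t => by rw [map_add, Matrix.mul_add, map_add, map_add]; rfl)
      (fun c v t => by rw [map_smul, Matrix.mul_smul, map_smul, map_smul]; rfl)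
      (fun v t t' => by rw [map_add])
      (fun c v t => by rw [map_smul]))

theorem gP_act (P : Matrix (Fin m) (Fin m) R) (hP : InK A P) (c : Fin m → R) :
    gP D P ∘ₗ act D (D.qN c) = act D (D.qN (P *ᵥ c)) := by
  apply M_ext
  · intro r
    rw [LinearMap.comp_apply, act_r, act_r, gP, elimT_nil, rm_q, rm_q]
    show Finsupp.single [] (D.qN (P *ᵥ D.sN (D.qN fun i => c i * r))) = _
    congr 1
    rw [← sub_eq_zero, ← map_sub, D.kN]
    intro z hz
    have e1 : (fun i => (P *ᵥ c) i * r) = P *ᵥ (fun i => c i * r) := by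
      ext i
      simp only [mulVec, dotProduct, Finset.sum_mul, mul_assoc]
    rw [e1, ← mulVec_sub, dotProduct_mulVec]
    exact sNq D _ _ (hP z hz)
  · intro i t
    rw [LinearMap.comp_apply, act_br, act_br, gP, elimT_curly]
    show curly D (D.qV (P * D.sV _)) t = _
    congr 1
    have e0 : D.bL i = D.qL (D.sL (D.bL i)) := (D.qsL _).symm
    rw [e0, junc_q, junc_q, ← mul_vecMulVec]
    congr 1
    rw [← sub_eq_zero, ← map_sub, D.kV]
    intro z hz
    rw [← Matrix.mul_sub, ← vecMul_vecMul]
    exact sVq D _ _ (hP z hz)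

theorem PS_K (P : Matrix (Fin m) (Fin m) R) (hP : InK A P) : PS D P = gP D P := by
  have h : gP D P ∘ₗ PS D 1 = PS D P := by
    rw [PS_eq, PS_eq]
    refine LinearMap.ext (fun t => ?_)
    rw [LinearMap.comp_apply, LinearMap.sum_apply, LinearMap.sum_apply, map_sum]
    apply Finset.sum_congr rfl
    intro q _
    have h1 := congrArg (fun f => f (sg D q t)) (gP_act D P hP (fun i => (1 : Matrix _ _ R) i q))
    simp only [LinearMap.comp_apply] at h1 ⊢
    rw [h1]
    congr 3
    have h2 : (P * (1 : Matrix (Fin m) (Fin m) R)) = P := Matrix.mul_one P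
    ext i
    exact congrFun (congrFun h2 i) q
  rw [← h, PS_one, LinearMap.comp_id]

theorem gP_PS (P Q : Matrix (Fin m) (Fin m) R) (hP : InK A P) :
    gP D P ∘ₗ PS D Q = PS D (P * Q) := by
  rw [PS_eq, PS_eq]
  refine LinearMap.ext (fun t => ?_)
  rw [LinearMap.comp_apply, LinearMap.sum_apply, LinearMap.sum_apply, map_sum]
  apply Finset.sum_congr rfl
  intro q _
  have h1 := congrArg (fun f => f (sg D q t)) (gP_act D P hP (fun i => Q i q))
  simp only [LinearMap.comp_apply] at h1 ⊢
  rw [h1]
  rfl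

noncomputable def zb (z : Fin m → R) : T D →ₗ[k] Mo D :=
  elimT D (LinearMap.inl k R (D.ι →₀ T D) ∘ₗ
      { toFun := fun x => z ⬝ᵥ D.sN x
        map_add' := fun x y => by rw [map_add, dotProduct_add]
        map_smul' := fun c x => by rw [map_smul, dotProduct_smul]; rfl })
    (LinearMap.mk₂ k (fun v t => ((0 : R), br D (D.qL (z ᵥ* D.sV v)) t))
      (fun v w t => by rw [map_add, vecMul_add, map_add, map_add]; simp)
      (fun c v t => by rw [map_smul, vecMul_smul, map_smul, map_smul]; simp)
      (fun v t t' => by rw [map_add]; simp)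
      (fun c v t => by rw [map_smul]; simp))

theorem zb_act (z : Fin m → R) (hz : z ᵥ* A = 0) (c : Fin m → R) :
    zb D z ∘ₗ act D (D.qN c) = (lm D (z ⬝ᵥ c) : Mo D →ₗ[k] Mo D) := by
  apply M_ext
  · intro r
    rw [LinearMap.comp_apply, act_r, zb, elimT_nil, rm_q, lm_r]
    show (z ⬝ᵥ D.sN (D.qN fun i => c i * r), (0 : D.ι →₀ T D)) = _
    congr 1
    have h1 := sNq D (fun i => c i * r) z hz
    rw [dotProduct_sub, sub_eq_zero] at h1
    rw [h1]
    simp only [dotProduct, Finset.sum_mul, mul_assoc]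
  · intro i t
    rw [LinearMap.comp_apply, act_br, zb, elimT_curly, lm_br]
    show ((0 : R), br D (D.qL (z ᵥ* D.sV _)) t) = _
    congr 2
    have e0 : D.bL i = D.qL (D.sL (D.bL i)) := (D.qsL _).symm
    rw [e0, junc_q, lml_q, ← vecMul_vecMulVec']
    congr 1
    apply qL_eq
    rw [← vecMul_sub]
    exact sVq D _ z hz

theorem zb_PS (z : Fin m → R) (hz : z ᵥ* A = 0) (Q : Matrix (Fin m) (Fin m) R) :
    zb D z ∘ₗ PS D Q = RS D (z ᵥ* Q) := by
  rw [PS_eq, RS_eq]
  refine LinearMap.ext (fun t => ?_)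
  rw [LinearMap.comp_apply, LinearMap.sum_apply, LinearMap.sum_apply, map_sum]
  apply Finset.sum_congr rfl
  intro q _
  have h1 := congrArg (fun f => f (sg D q t)) (zb_act D z hz (fun i => Q i q))
  simp only [LinearMap.comp_apply] at h1 ⊢
  rw [h1]
  rfl

theorem RS_Z (z : Fin m → R) (hz : z ᵥ* A = 0) : RS D z = zb D z := by
  have h := zb_PS D z hz 1
  rw [PS_one, LinearMap.comp_id, vecMul_one] at h
  exact h.symm

theorem act_lm (c : Fin m → R) (r : R) :
    act D (D.qN c) ∘ₗ (lm D r : Mo D →ₗ[k] Mo D) = act D (D.qN (fun i => c i * r)) := by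
  apply M_ext
  · intro r'
    rw [LinearMap.comp_apply, lm_r, act_r, act_r, rm_q, rm_q]
    simp only [mul_assoc]
  · intro i t
    rw [LinearMap.comp_apply, lm_br, act_br, act_br]
    congr 1
    have e0 : D.bL i = D.qL (D.sL (D.bL i)) := (D.qsL _).symm
    rw [e0, lml_q, junc_q, junc_q]
    congr 2
    ext a b
    simp [vecMulVec_apply, mul_assoc]

theorem act_RS (c ρ : Fin m → R) :
    act D (D.qN c) ∘ₗ RS D ρ = PS D (vecMulVec c ρ) := by
  rw [PS_eq, RS_eq]
  refine LinearMap.ext (fun t => ?_)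
  rw [LinearMap.comp_apply, LinearMap.sum_apply, LinearMap.sum_apply, map_sum]
  apply Finset.sum_congr rfl
  intro q _
  have h1 := congrArg (fun f => f (sg D q t)) (act_lm D c (ρ q))
  simp only [LinearMap.comp_apply] at h1 ⊢
  rw [h1]
  rfl

theorem lm_RS (r : R) (ρ : Fin m → R) :
    (lm D r : Mo D →ₗ[k] Mo D) ∘ₗ RS D ρ = RS D (r • ρ) := by
  rw [RS_eq, RS_eq]
  refine LinearMap.ext (fun t => ?_)
  rw [LinearMap.comp_apply, LinearMap.sum_apply, LinearMap.sum_apply, map_sum]
  apply Finset.sum_congr rfl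
  intro q _
  rw [LinearMap.comp_apply, LinearMap.comp_apply, Pi.smul_apply, smul_eq_mul, map_mul]
  rfl

end Pool.Agent.H138R3.NORE
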