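import Pool.Agent.H138R3.NORE.E1b

set_option autoImplicit false

namespace Pool.Agent.H138R3.NORE

open Matrix

variable {k : Type} [Field k] {R : Type} [Ring R] [Algebra k R] {m n : ℕ}
  {A : Matrix (Fin m) (Fin n) R} (D : Dat k A)

noncomputable def thw : List D.β → (T D →ₗ[k] T D)
  | [] => LinearMap.id
  | b :: w => PS D (D.sV (D.bV b)) ∘ₗ thw w

noncomputable def Th : T D →ₗ[k] (Mo D →ₗ[k] T D) :=
  Finsupp.lsum k (fun w => (LinearMap.llcomp k (Mo D) (T D) (T D) (thw D w)) ∘ₗ act D)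

theorem Th_single (w : List D.β) (x : D.N) :
    Th D (Finsupp.single w x) = thw D w ∘ₗ act D x := by
  rw [Th, Finsupp.lsum_single]; rfl

theorem Th_curly (v : D.V) (t : T D) : Th D (curly D v t) = PS D (D.sV v) ∘ₗ Th D t := by
  have h : (curly D).compr₂ (Th D) =
      LinearMap.mk₂ k (fun v t => PS D (D.sV v) ∘ₗ Th D t)
        (fun v w t => by rw [map_add, map_add, LinearMap.add_comp])
        (fun c v t => by rw [map_smul, map_smul, LinearMap.smul_comp])
        (fun v t t' => by rw [map_add, LinearMap.comp_add])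
        (fun c v t => by rw [map_smul, LinearMap.comp_smul]) := by
    apply D.bV.ext
    intro b
    apply Finsupp.lhom_ext
    intro w x
    rw [LinearMap.compr₂_apply, curly_basis, cons_single, Th_single]
    show _ = PS D (D.sV (D.bV b)) ∘ₗ Th D (Finsupp.single w x)
    rw [Th_single]
    rfl
  exact congrArg (fun f => f v t) h

noncomputable def Ps : Mo D →ₗ[k] Module.End k (Mo D) :=
  ((lm D).toLinearMap ∘ₗ LinearMap.fst k R (D.ι →₀ T D)) +
    (Finsupp.lsum k (fun i => (LinearMap.llcomp k (Mo D) (T D) (Mo D)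
      (RS D (D.sL (D.bL i)))) ∘ₗ Th D)) ∘ₗ LinearMap.snd k R (D.ι →₀ T D)

theorem Ps_r (r : R) : Ps D (r, 0) = lm D r := by
  simp [Ps]

theorem Ps_br (l : D.L) (t : T D) : Ps D (0, br D l t) = RS D (D.sL l) ∘ₗ Th D t := by
  have h := lsum_br D (LinearMap.mk₂ k (fun l t => (RS D (D.sL l) ∘ₗ Th D t : Mo D →ₗ[k] Mo D))
        (fun v w t => by rw [map_add, map_add, LinearMap.add_comp])
        (fun c v t => by rw [map_smul, map_smul, LinearMap.smul_comp])
        (fun v t t' => by rw [map_add, LinearMap.comp_add])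
        (fun c v t => by rw [map_smul, LinearMap.comp_smul])) l t
  simp only [Ps, LinearMap.add_apply, LinearMap.comp_apply, LinearMap.fst_apply,
    LinearMap.snd_apply, map_zero, zero_add]
  exact h

theorem sub_sV (P : Matrix (Fin m) (Fin m) R) : InK A (P - D.sV (D.qV P)) := by
  intro z hz
  have : D.qV (P - D.sV (D.qV P)) = 0 := by rw [map_sub, D.qsV, sub_self]
  exact (D.kV _).mp this z hz

theorem AofB (w : List D.β)
    (hB : ∀ P, InK A P → ∀ x, ∃ t, Th D t = gP D P ∘ₗ (thw D w ∘ₗ act D x))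
    (P : Matrix (Fin m) (Fin m) R) (x : D.N) :
    ∃ t, Th D t = PS D P ∘ₗ (thw D w ∘ₗ act D x) := by
  obtain ⟨t', ht'⟩ := hB _ (sub_sV D P) x
  refine ⟨curly D (D.qV P) (Finsupp.single w x) + t', ?_⟩
  rw [map_add, Th_curly, Th_single, ht', ← PS_K D _ (sub_sV D P), ← LinearMap.add_comp,
    ← map_add, add_sub_cancel]

theorem AB (w : List D.β) :
    (∀ P x, ∃ t, Th D t = PS D P ∘ₗ (thw D w ∘ₗ act D x)) ∧
    (∀ P, InK A P → ∀ x, ∃ t, Th D t = gP D P ∘ₗ (thw D w ∘ₗ act D x)) := by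
  induction w with
  | nil =>
    have hB : ∀ P, InK A P → ∀ x, ∃ t, Th D t = gP D P ∘ₗ (thw D [] ∘ₗ act D x) := by
      intro P hP x
      refine ⟨Finsupp.single [] (D.qN (P *ᵥ D.sN x)), ?_⟩
      rw [Th_single, ← gP_act D P hP, D.qsN]
      rfl
    exact ⟨AofB D _ hB, hB⟩
  | cons b w ih =>
    have hB : ∀ P, InK A P → ∀ x, ∃ t, Th D t = gP D P ∘ₗ (thw D (b :: w) ∘ₗ act D x) := by
      intro P hP x
      obtain ⟨t, ht⟩ := ih.1 (P * D.sV (D.bV b)) x
      refine ⟨t, ?_⟩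
      rw [ht, ← gP_PS D _ _ hP]
      rfl
    exact ⟨AofB D _ hB, hB⟩

theorem closure_A (P : Matrix (Fin m) (Fin m) R) (t : T D) :
    ∃ t', Th D t' = PS D P ∘ₗ Th D t := by
  induction t using Finsupp.induction_linear with
  | zero => exact ⟨0, by rw [map_zero, LinearMap.comp_zero]⟩
  | add f g hf hg =>
    obtain ⟨a, ha⟩ := hf
    obtain ⟨b, hb⟩ := hg
    exact ⟨a + b, by rw [map_add, ha, hb, map_add, LinearMap.comp_add]⟩
  | single w x =>
    rw [Th_single]
    exact (AB D w).1 P x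

theorem CofD (w : List D.β)
    (hD : ∀ z : Fin m → R, z ᵥ* A = 0 → ∀ x, ∃ μ, Ps D μ = zb D z ∘ₗ (thw D w ∘ₗ act D x))
    (ρ : Fin m → R) (x : D.N) :
    ∃ μ, Ps D μ = RS D ρ ∘ₗ (thw D w ∘ₗ act D x) := by
  have hz : (ρ - D.sL (D.qL ρ)) ᵥ* A = 0 := by
    rw [← D.kL, map_sub, D.qsL, sub_self]
  obtain ⟨μ', hμ'⟩ := hD _ hz x
  refine ⟨(0, br D (D.qL ρ) (Finsupp.single w x)) + μ', ?_⟩
  rw [map_add, Ps_br, Th_single, hμ', ← RS_Z D _ hz, ← LinearMap.add_comp,
    ← map_add, add_sub_cancel]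

theorem CD (w : List D.β) :
    (∀ ρ x, ∃ μ, Ps D μ = RS D ρ ∘ₗ (thw D w ∘ₗ act D x)) ∧
    (∀ z : Fin m → R, z ᵥ* A = 0 → ∀ x, ∃ μ, Ps D μ = zb D z ∘ₗ (thw D w ∘ₗ act D x)) := by
  induction w with
  | nil =>
    have hB : ∀ z : Fin m → R, z ᵥ* A = 0 → ∀ x, ∃ μ,
        Ps D μ = zb D z ∘ₗ (thw D [] ∘ₗ act D x) := by
      intro z hz x
      refine ⟨(z ⬝ᵥ D.sN x, 0), ?_⟩
      rw [Ps_r]
      have := zb_act D z hz (D.sN x)
      rw [D.qsN] at this
      exact this.symm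
    exact ⟨CofD D _ hB, hB⟩
  | cons b w ih =>
    have hB : ∀ z : Fin m → R, z ᵥ* A = 0 → ∀ x, ∃ μ,
        Ps D μ = zb D z ∘ₗ (thw D (b :: w) ∘ₗ act D x) := by
      intro z hz x
      obtain ⟨t, ht⟩ := ih.1 (z ᵥ* D.sV (D.bV b)) x
      refine ⟨t, ?_⟩
      rw [ht, ← zb_PS D _ hz]
      rfl
    exact ⟨CofD D _ hB, hB⟩

theorem closure_C (ρ : Fin m → R) (t : T D) : ∃ μ, Ps D μ = RS D ρ ∘ₗ Th D t := by
  induction t using Finsupp.induction_linear with
  | zero => exact ⟨0, by rw [map_zero, map_zero, LinearMap.comp_zero]⟩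
  | add f g hf hg =>
    obtain ⟨a, ha⟩ := hf
    obtain ⟨b, hb⟩ := hg
    exact ⟨a + b, by rw [map_add, ha, hb, map_add, LinearMap.comp_add]⟩
  | single w x =>
    rw [Th_single]
    exact (CD D w).1 ρ x

theorem M_ind {p : Mo D → Prop} (h0 : ∀ r, p (r, 0)) (h1 : ∀ i t, p (0, br D (D.bL i) t))
    (hadd : ∀ x y, p x → p y → p (x + y)) (μ : Mo D) : p μ := by
  obtain ⟨r, X⟩ := μ
  have h2 : ∀ X : D.ι →₀ T D, p (0, X) := by
    intro X
    induction X using Finsupp.induction_linear with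
    | zero => exact h0 0
    | add f g hf hg =>
      have := hadd _ _ hf hg
      simpa using this
    | single i t =>
      have := h1 i t
      rwa [br_basis] at this
  have := hadd _ _ (h0 r) (h2 X)
  simpa using this

noncomputable def ee (p q : Fin m) : Module.End k (Mo D) :=
  sg D p ∘ₗ act D (D.qN (Pi.single q 1))

theorem RS_single (p : Fin m) : RS D (Pi.single p 1) = sg D p := by
  rw [RS_eq, Finset.sum_eq_single p]
  · rw [Pi.single_eq_same, map_one]; rfl
  · intro q _ hq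
    rw [Pi.single_eq_of_ne hq, map_zero, LinearMap.zero_comp]
  · intro h; exact absurd (Finset.mem_univ _) h

theorem lm_closed (r : R) (μ : Mo D) : ∃ μ', Ps D μ' = lm D r * Ps D μ := by
  induction μ using M_ind with
  | h0 s => exact ⟨(r * s, 0), by rw [Ps_r, Ps_r, map_mul]⟩
  | h1 i t =>
    obtain ⟨μ', h⟩ := closure_C D (r • D.sL (D.bL i)) t
    refine ⟨μ', ?_⟩
    rw [h, Ps_br, ← lm_RS]
    rfl
  | hadd x y hx hy =>
    obtain ⟨a, ha⟩ := hx
    obtain ⟨b, hb⟩ := hy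
    exact ⟨a + b, by rw [map_add, ha, hb, map_add, mul_add]⟩

theorem ee_closed (p q : Fin m) (μ : Mo D) : ∃ μ', Ps D μ' = ee D p q * Ps D μ := by
  induction μ using M_ind with
  | h0 s =>
    obtain ⟨μ', h⟩ := closure_C D (Pi.single p 1)
      (Finsupp.single [] (D.qN (fun i => (Pi.single q (1 : R) : Fin m → R) i * s)))
    refine ⟨μ', ?_⟩
    rw [h, Ps_r, Th_single, RS_single, ← act_lm]
    rfl
  | h1 i t =>
    obtain ⟨t', ht'⟩ := closure_A D (vecMulVec (Pi.single q 1) (D.sL (D.bL i))) t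
    obtain ⟨μ', h⟩ := closure_C D (Pi.single p 1) t'
    refine ⟨μ', ?_⟩
    rw [h, ht', Ps_br, RS_single, ← act_RS]
    rfl
  | hadd x y hx hy =>
    obtain ⟨a, ha⟩ := hx
    obtain ⟨b, hb⟩ := hy
    exact ⟨a + b, by rw [map_add, ha, hb, map_add, mul_add]⟩

/-- the algebra generated by `R` and the entries of `e` -/
noncomputable def Sal : Subalgebra k (Module.End k (Mo D)) :=
  Algebra.adjoin k (Set.range (lm D) ∪ Set.range (fun pq : Fin m × Fin m => ee D pq.1 pq.2))

theorem lm_mem (r : R) : lm D r ∈ Sal D := Algebra.subset_adjoin (Or.inl ⟨r, rfl⟩)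
theorem ee_mem (p q : Fin m) : ee D p q ∈ Sal D := Algebra.subset_adjoin (Or.inr ⟨(p, q), rfl⟩)

theorem Sal_closed (x : Module.End k (Mo D)) (hx : x ∈ Sal D) :
    ∀ μ : Mo D, ∃ μ', Ps D μ' = x * Ps D μ := by
  induction hx using Algebra.adjoin_induction with
  | mem x hx =>
    intro μ
    rcases hx with ⟨r, rfl⟩ | ⟨pq, rfl⟩
    · exact lm_closed D r μ
    · exact ee_closed D _ _ μ
  | algebraMap c =>
    intro μ
    exact ⟨c • μ, by rw [map_smul, ← Algebra.smul_def]⟩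
  | add x y _ _ hx hy =>
    intro μ
    obtain ⟨a, ha⟩ := hx μ
    obtain ⟨b, hb⟩ := hy μ
    exact ⟨a + b, by rw [map_add, ha, hb, add_mul]⟩
  | mul x y _ _ hx hy =>
    intro μ
    obtain ⟨b, hb⟩ := hy μ
    obtain ⟨a, ha⟩ := hx b
    exact ⟨a, by rw [ha, hb, mul_assoc]⟩

theorem exists_Ps (x : Module.End k (Mo D)) (hx : x ∈ Sal D) : ∃ μ, Ps D μ = x := by
  obtain ⟨μ, h⟩ := Sal_closed D x hx (1, 0)
  rw [Ps_r, map_one, mul_one] at h
  exact ⟨μ, h⟩

theorem act_mem (p : Fin m) (c : Fin m → R) :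
    (sg D p ∘ₗ act D (D.qN c) : Module.End k (Mo D)) ∈ Sal D := by
  have h : (sg D p ∘ₗ act D (D.qN c) : Module.End k (Mo D)) = ∑ q, ee D p q * lm D (c q) := by
    have h1 : ∀ q : Fin m, ee D p q * lm D (c q) =
        sg D p ∘ₗ act D (D.qN (fun i => (Pi.single q (1 : R) : Fin m → R) i * c q)) := by
      intro q
      rw [← act_lm]
      rfl
    simp only [h1]
    have h2 : c = ∑ q, (fun i => (Pi.single q (1 : R) : Fin m → R) i * c q) := by
      ext i
      rw [Finset.sum_apply]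
      simp [Pi.single_apply]
    conv_lhs => rw [h2]
    rw [map_sum, map_sum]
    refine LinearMap.ext (fun t => ?_)
    rw [LinearMap.comp_apply, LinearMap.sum_apply, LinearMap.sum_apply, map_sum]
    rfl
  rw [h]
  exact Subalgebra.sum_mem _ (fun q _ => Subalgebra.mul_mem _ (ee_mem D p q) (lm_mem D _))

theorem thw_mem (w : List D.β) : ∀ (p : Fin m) (x : D.N),
    (sg D p ∘ₗ (thw D w ∘ₗ act D x) : Module.End k (Mo D)) ∈ Sal D := by
  induction w with
  | nil =>
    intro p x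
    have := act_mem D p (D.sN x)
    rw [D.qsN] at this
    exact this
  | cons b w ih =>
    intro p x
    have h : (sg D p ∘ₗ (thw D (b :: w) ∘ₗ act D x) : Module.End k (Mo D)) =
        ∑ q, (sg D p ∘ₗ act D (D.qN (fun i => D.sV (D.bV b) i q)) : Module.End k (Mo D)) *
          (sg D q ∘ₗ (thw D w ∘ₗ act D x) : Module.End k (Mo D)) := by
      refine LinearMap.ext (fun t => ?_)
      rw [LinearMap.sum_apply]
      show sg D p (PS D (D.sV (D.bV b)) (thw D w (act D x t))) = _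
      rw [PS_eq, LinearMap.sum_apply, map_sum]
      rfl
    rw [h]
    exact Subalgebra.sum_mem _ (fun q _ => Subalgebra.mul_mem _ (act_mem D p _) (ih q x))

theorem sgTh_mem (p : Fin m) (t : T D) : (sg D p ∘ₗ Th D t : Module.End k (Mo D)) ∈ Sal D := by
  induction t using Finsupp.induction_linear with
  | zero => rw [map_zero, LinearMap.comp_zero]; exact Subalgebra.zero_mem _
  | add f g hf hg =>
    rw [map_add, LinearMap.comp_add]; exact Subalgebra.add_mem _ hf hg
  | single w x => rw [Th_single]; exact thw_mem D w p x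

theorem RSTh_mem (ρ : Fin m → R) (t : T D) :
    (RS D ρ ∘ₗ Th D t : Module.End k (Mo D)) ∈ Sal D := by
  have h : (RS D ρ ∘ₗ Th D t : Module.End k (Mo D)) =
      ∑ q, lm D (ρ q) * (sg D q ∘ₗ Th D t : Module.End k (Mo D)) := by
    refine LinearMap.ext (fun μ => ?_)
    rw [LinearMap.comp_apply, RS_eq, LinearMap.sum_apply, LinearMap.sum_apply]
    rfl
  rw [h]
  exact Subalgebra.sum_mem _ (fun q _ => Subalgebra.mul_mem _ (lm_mem D _) (sgTh_mem D q t))

theorem Ps_mem (μ : Mo D) : Ps D μ ∈ Sal D := by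
  induction μ using M_ind with
  | h0 s => rw [Ps_r]; exact lm_mem D s
  | h1 i t => rw [Ps_br]; exact RSTh_mem D _ t
  | hadd x y hx hy => rw [map_add]; exact Subalgebra.add_mem _ hx hy

end Pool.Agent.H138R3.NORE
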