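import Pool.Agent.H138R3.NORE.E1c

set_option autoImplicit false

namespace Pool.Agent.H138R3.NORE

open Matrix

variable {k : Type} [Field k] {R : Type} [Ring R] [Algebra k R] {m n : ℕ}
  {A : Matrix (Fin m) (Fin n) R} (D : Dat k A)

def TDs (d : ℕ) : Submodule k (T D) where
  carrier := {t | ∀ w : List D.β, d < w.length → t w = 0}
  add_mem' := by
    intro a b ha hb w hw
    rw [Finsupp.add_apply, ha w hw, hb w hw, add_zero]
  zero_mem' := by intro w _; rfl
  smul_mem' := by
    intro c a ha w hw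
    rw [Finsupp.smul_apply, ha w hw, smul_zero]

def MDs (d : ℕ) : Submodule k (Mo D) where
  carrier := {μ | ∀ (i : D.ι) (w : List D.β), d < w.length + 1 → μ.2 i w = 0}
  add_mem' := by
    intro a b ha hb i w hw
    rw [Prod.snd_add, Finsupp.add_apply, Finsupp.add_apply, ha i w hw, hb i w hw, add_zero]
  zero_mem' := by intro i w _; rfl
  smul_mem' := by
    intro c a ha i w hw
    rw [Prod.smul_snd, Finsupp.smul_apply, Finsupp.smul_apply, ha i w hw, smul_zero]

theorem mem_TDs (d : ℕ) (t : T D) : t ∈ TDs D d ↔ ∀ w : List D.β, d < w.length → t w = 0 :=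
  Iff.rfl
theorem mem_MDs (d : ℕ) (μ : Mo D) :
    μ ∈ MDs D d ↔ ∀ (i : D.ι) (w : List D.β), d < w.length + 1 → μ.2 i w = 0 := Iff.rfl

theorem TD_ind {X : Type} [AddCommGroup X] [Module k X] (d : ℕ) (f : T D →ₗ[k] X)
    (S : Submodule k X) (h : ∀ w x, w.length ≤ d → f (Finsupp.single w x) ∈ S)
    (t : T D) (ht : t ∈ TDs D d) : f t ∈ S := by
  have e : f t = t.sum (fun w x => f (Finsupp.single w x)) := by
    conv_lhs => rw [← Finsupp.sum_single t]
    rw [map_finsuppSum]
  rw [e]
  apply Submodule.sum_mem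
  intro w hw
  apply h
  by_contra hcon
  exact (Finsupp.mem_support_iff.mp hw) (ht w (by omega))

theorem MD_ind {X : Type} [AddCommGroup X] [Module k X] (d : ℕ) (f : Mo D →ₗ[k] X)
    (S : Submodule k X) (h0 : ∀ r, f (r, 0) ∈ S)
    (h : ∀ i w x, w.length + 1 ≤ d → f (0, br D (D.bL i) (Finsupp.single w x)) ∈ S)
    (μ : Mo D) (hμ : μ ∈ MDs D d) : f μ ∈ S := by
  obtain ⟨r, X⟩ := μ
  have e0 : ((r, X) : Mo D) = (r, 0) + (0, X) := by simp
  rw [e0, map_add]
  refine Submodule.add_mem _ (h0 r) ?_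
  have e : f (0, X) = X.sum (fun i t => f (0, Finsupp.single i t)) := by
    have e1 : f (0, X) = (f ∘ₗ LinearMap.inr k R (D.ι →₀ T D)) X := rfl
    rw [e1]
    conv_lhs => rw [← Finsupp.sum_single X]
    rw [map_finsuppSum]
    rfl
  rw [e]
  apply Submodule.sum_mem
  intro i _
  have e2 : f (0, Finsupp.single i (X i)) =
      (f ∘ₗ LinearMap.inr k R (D.ι →₀ T D) ∘ₗ Finsupp.lsingle i) (X i) := rfl
  show f (0, Finsupp.single i (X i)) ∈ S
  rw [e2]
  cases d with
  | zero =>
    have : X i = 0 := by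
      ext w
      exact hμ i w (by omega)
    rw [this, map_zero]
    exact Submodule.zero_mem _
  | succ d =>
    apply TD_ind D d _ S
    · intro w x hw
      have := h i w x (by omega)
      rw [br_basis] at this
      exact this
    · intro w hw
      exact hμ i w (by omega)

theorem br_mem (l : D.L) (w : List D.β) (x : D.N) (d : ℕ) (hw : w.length + 1 ≤ d) :
    ((0, br D l (Finsupp.single w x)) : Mo D) ∈ MDs D d := by
  classical
  intro i w' hw'
  show br D l (Finsupp.single w x) i w' = 0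
  rw [br_apply, Finsupp.smul_apply, Finsupp.single_apply, if_neg, smul_zero]
  rintro rfl
  omega

theorem act_deg (d : ℕ) (x : D.N) (μ : Mo D) (hμ : μ ∈ MDs D d) : act D x μ ∈ TDs D d := by
  classical
  apply MD_ind D d (act D x) (TDs D d) _ _ μ hμ
  · intro r
    rw [act_r]
    intro w hw
    rw [Finsupp.single_apply, if_neg]
    rintro rfl
    simp at hw
  · intro i w y hw w' hw'
    rw [act_br]
    cases w' with
    | nil => exact curly_nil D _ _
    | cons b w' =>
      rw [curly_apply, Finsupp.single_apply, if_neg, smul_zero]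
      rintro rfl
      rw [List.length_cons] at hw'
      omega

theorem s0_deg (d : ℕ) (p : Fin m) (t : T D) (ht : t ∈ TDs D d) : s0 D p t ∈ MDs D d := by
  apply TD_ind D d (s0 D p) (MDs D d) _ t ht
  intro w x hw
  cases w with
  | nil => rw [s0_nil]; intro i w' _; rfl
  | cons b w =>
    rw [← cons_single, ← curly_basis, s0_curly]
    apply br_mem
    exact hw

theorem s1_deg (d : ℕ) (p : Fin m) (t : T D) (ht : t ∈ TDs D d) : s1 D p t ∈ MDs D (d + 1) := by
  apply TD_ind D d (s1 D p) (MDs D (d + 1)) _ t ht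
  intro w x hw
  rw [s1_apply]
  apply br_mem
  omega

theorem lm_deg (d : ℕ) (r : R) (μ : Mo D) (hμ : μ ∈ MDs D d) : lm D r μ ∈ MDs D d := by
  apply MD_ind D d (lm D r : Mo D →ₗ[k] Mo D) (MDs D d) _ _ μ hμ
  · intro r'
    rw [lm_r]
    intro i w _
    rfl
  · intro i w y hw
    rw [lm_br]
    exact br_mem D _ _ _ _ hw

theorem err_deg (d : ℕ) (P : Matrix (Fin m) (Fin m) R) (t : T D) (ht : t ∈ TDs D d) :
    err D P t ∈ TDs D d := by
  rw [err, LinearMap.sum_apply]
  apply Submodule.sum_mem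
  intro q _
  exact act_deg D d _ _ (s0_deg D d q t ht)

theorem curly_deg (d : ℕ) (v : D.V) (t : T D) (ht : t ∈ TDs D d) :
    curly D v t ∈ TDs D (d + 1) := by
  intro w hw
  cases w with
  | nil => exact curly_nil D _ _
  | cons b w =>
    rw [curly_apply, ht w (by rw [List.length_cons] at hw; omega), smul_zero]

theorem TDs_mono {d e : ℕ} (h : d ≤ e) (t : T D) (ht : t ∈ TDs D d) : t ∈ TDs D e :=
  fun w hw => ht w (by omega)
theorem MDs_mono {d e : ℕ} (h : d ≤ e) (t : Mo D) (ht : t ∈ MDs D d) : t ∈ MDs D e :=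
  fun i w hw => ht i w (by omega)

theorem PS_deg (d : ℕ) (P : Matrix (Fin m) (Fin m) R) (t : T D) (ht : t ∈ TDs D d) :
    PS D P t ∈ TDs D (d + 1) := by
  rw [PS_err, LinearMap.add_apply]
  exact Submodule.add_mem _ (TDs_mono D (by omega) _ (err_deg D d P t ht))
    (curly_deg D d _ t ht)

theorem PS_top (d : ℕ) (P : Matrix (Fin m) (Fin m) R) (t : T D) (ht : t ∈ TDs D d)
    (b : D.β) (w : List D.β) (hw : w.length = d) :
    PS D P t (b :: w) = D.bV.repr (D.qV P) b • t w := by
  rw [PS_err, LinearMap.add_apply, Finsupp.add_apply, curly_apply,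
    err_deg D d P t ht (b :: w) (by rw [List.length_cons]; omega), zero_add]

theorem thw_deg (d : ℕ) (w : List D.β) (t : T D) (ht : t ∈ TDs D d) :
    thw D w t ∈ TDs D (w.length + d) := by
  induction w with
  | nil => rw [List.length_nil, zero_add]; exact ht
  | cons b w ih =>
    have := PS_deg D (w.length + d) (D.sV (D.bV b)) _ ih
    rw [List.length_cons, show w.length + 1 + d = w.length + d + 1 by ring]
    exact this

theorem thw_top [DecidableEq (List D.β)] (d : ℕ) (w : List D.β) (t : T D)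
    (ht : t ∈ TDs D d) : ∀ (w1 w2 : List D.β), w1.length = w.length → w2.length = d →
    thw D w t (w1 ++ w2) = if w = w1 then t w2 else 0 := by
  classical
  induction w with
  | nil =>
    intro w1 w2 h1 h2
    rw [List.length_nil, List.length_eq_zero_iff] at h1
    subst h1
    rw [if_pos rfl]
    rfl
  | cons b w ih =>
    intro w1 w2 h1 h2
    cases w1 with
    | nil => simp at h1
    | cons b1 w1 =>
      rw [List.length_cons, List.length_cons, Nat.add_right_cancel_iff] at h1
      show PS D (D.sV (D.bV b)) (thw D w t) (b1 :: (w1 ++ w2)) = _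
      rw [PS_top D (w.length + d) _ _ (thw_deg D d w t ht) b1 (w1 ++ w2)
        (by rw [List.length_append]; omega), ih w1 w2 h1 h2, D.qsV, D.bV.repr_self,
        Finsupp.single_apply]
      by_cases hb : b = b1
      · subst hb
        by_cases hw : w = w1
        · subst hw; simp
        · rw [if_neg hw, smul_zero, if_neg]
          intro h; exact hw (List.cons.inj h).2
      · rw [if_neg hb, zero_smul, if_neg]
        intro h; exact hb (List.cons.inj h).1

theorem RS_split (ρ : Fin m → R) (t : T D) :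
    RS D ρ t = ∑ q, lm D (ρ q) (s0 D q t) + (0, br D (D.qL ρ) t) := by
  rw [RS_eq, LinearMap.sum_apply]
  simp only [LinearMap.comp_apply, sg, LinearMap.add_apply, map_add, Finset.sum_add_distrib]
  congr 1
  simp only [s1_apply, lm_br, lml_q]
  have h1 : ρ = ∑ q, ρ q • (Pi.single q (1 : R) : Fin m → R) := by
    ext i
    rw [Finset.sum_apply]
    simp [Pi.single_apply]
  conv_rhs => rw [h1]
  rw [map_sum, map_sum, LinearMap.sum_apply]
  have h2 := map_sum (LinearMap.inr k R (D.ι →₀ T D))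
    (fun q => br D (D.qL (ρ q • (Pi.single q (1 : R) : Fin m → R))) t) Finset.univ
  exact h2.symm

theorem RS_deg (d : ℕ) (ρ : Fin m → R) (t : T D) (ht : t ∈ TDs D d) :
    RS D ρ t ∈ MDs D (d + 1) := by
  rw [RS_split]
  refine Submodule.add_mem _ (Submodule.sum_mem _ (fun q _ => ?_)) ?_
  · exact MDs_mono D (by omega) _ (lm_deg D d _ _ (s0_deg D d q t ht))
  · intro i w hw
    show br D (D.qL ρ) t i w = 0
    rw [br_apply, Finsupp.smul_apply, ht w (by omega), smul_zero]

theorem RS_top (d : ℕ) (ρ : Fin m → R) (t : T D) (ht : t ∈ TDs D d) (i : D.ι)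
    (w : List D.β) (hw : w.length = d) :
    (RS D ρ t).2 i w = D.bL.repr (D.qL ρ) i • t w := by
  rw [RS_split]
  have h1 : (∑ q, lm D (ρ q) (s0 D q t)) ∈ MDs D d :=
    Submodule.sum_mem _ (fun q _ => lm_deg D d _ _ (s0_deg D d q t ht))
  rw [Prod.snd_add, Finsupp.add_apply, Finsupp.add_apply, h1 i w (by omega), zero_add,
    br_apply, Finsupp.smul_apply]

theorem Ps_deg (a d : ℕ) (μ μ' : Mo D) (hμ : μ ∈ MDs D (a + 1)) (hμ' : μ' ∈ MDs D d) :
    Ps D μ μ' ∈ MDs D (a + 1 + d) := by
  have := MD_ind D (a + 1)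
    (LinearMap.flip (Ps D : Mo D →ₗ[k] (Mo D →ₗ[k] Mo D)) μ') (MDs D (a + 1 + d)) ?_ ?_ μ hμ
  · exact this
  · intro r
    rw [LinearMap.flip_apply, Ps_r]
    exact MDs_mono D (by omega) _ (lm_deg D d r μ' hμ')
  · intro i w x hw
    rw [LinearMap.flip_apply, Ps_br, Th_single]
    have h1 := RS_deg D _ (D.sL (D.bL i)) _ (thw_deg D d w _ (act_deg D d x μ' hμ'))
    exact MDs_mono D (by omega) _ h1

theorem Ps_top (a d : ℕ) (μ μ' : Mo D) (hμ : μ ∈ MDs D (a + 1)) (hμ' : μ' ∈ MDs D d)
    (i : D.ι) (w1 w2 : List D.β) (h1 : w1.length = a) (h2 : w2.length = d) :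
    (Ps D μ μ').2 i (w1 ++ w2) = act D (μ.2 i w1) μ' w2 := by
  classical
  rw [← sub_eq_zero, ← Submodule.mem_bot k]
  have := MD_ind D (a + 1)
    (((Finsupp.lapply (w1 ++ w2)) ∘ₗ (Finsupp.lapply i) ∘ₗ
      (LinearMap.snd k R (D.ι →₀ T D)) ∘ₗ
      (LinearMap.flip (Ps D : Mo D →ₗ[k] (Mo D →ₗ[k] Mo D)) μ')) -
      ((Finsupp.lapply w2) ∘ₗ ((act D).flip μ') ∘ₗ (Finsupp.lapply w1) ∘ₗ
        (Finsupp.lapply i) ∘ₗ (LinearMap.snd k R (D.ι →₀ T D)))) ⊥ ?_ ?_ μ hμ
  · exact this
  · intro r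
    rw [Submodule.mem_bot]
    show (Ps D (r, 0) μ').2 i (w1 ++ w2) - act D 0 μ' w2 = 0
    rw [Ps_r, map_zero, lm_deg D d r μ' hμ' i (w1 ++ w2) (by rw [List.length_append]; omega)]
    simp
  · intro i' w x hw
    rw [Submodule.mem_bot]
    show (Ps D (0, br D (D.bL i') (Finsupp.single w x)) μ').2 i (w1 ++ w2) -
      act D (br D (D.bL i') (Finsupp.single w x) i w1) μ' w2 = 0
    have ht := act_deg D d x μ' hμ'
    have ht2 := thw_deg D d w _ ht
    rw [Ps_br, Th_single]
    show (RS D (D.sL (D.bL i')) (thw D w (act D x μ'))).2 i (w1 ++ w2) - _ = 0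
    rw [RS_top D (a + d) _ _ (TDs_mono D (by omega) _ ht2) i (w1 ++ w2)
      (by rw [List.length_append]; omega), D.qsL, br_apply, Finsupp.smul_apply,
      D.bL.repr_self, Finsupp.single_apply]
    by_cases hi : i' = i
    · rw [if_pos hi, one_smul, one_smul]
      rcases Nat.lt_or_ge w.length a with hlt | hge
      · rw [ht2 (w1 ++ w2) (by rw [List.length_append]; omega), Finsupp.single_apply, if_neg]
        · simp
        · rintro rfl; omega
      · rw [thw_top D d w _ ht w1 w2 (by omega) h2, Finsupp.single_apply]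
        split_ifs <;> simp
    · rw [if_neg hi, zero_smul, zero_smul]; simp

end Pool.Agent.H138R3.NORE
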