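import Pool.Agent.H138R3.NORE.E1d

set_option autoImplicit false

namespace Pool.Agent.H138R3.NORE

open Matrix

variable {k : Type} [Field k] {R : Type} [Ring R] [Algebra k R] [IsDomain R] {m n : ℕ}
  {A : Matrix (Fin m) (Fin n) R} (D : Dat k A)

theorem smul_vec_eq_zero {R : Type} [Ring R] [IsDomain R] {n : ℕ} {r : R} {v : Fin n → R}
    (hr : r ≠ 0) (h : r • v = 0) : v = 0 := by
  ext i
  have := congrFun h i
  simp only [Pi.smul_apply, smul_eq_mul, Pi.zero_apply, mul_eq_zero] at this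
  exact this.resolve_left hr

theorem junc_ne (x : D.N) (l : D.L) (hx : x ≠ 0) (hl : l ≠ 0) : junc D x l ≠ 0 := by
  intro h
  apply hl
  rw [← D.qsL l, D.kL]
  have h1 : ¬ ∀ z : Fin m → R, z ᵥ* A = 0 → z ⬝ᵥ D.sN x = 0 := by
    rw [← D.kN, D.qsN]; exact hx
  push Not at h1
  obtain ⟨z, hz, hz2⟩ := h1
  have h2 : D.qV (vecMulVec (D.sN x) (D.sL l)) = 0 := h
  have h3 := (D.kV _).mp h2 z hz
  rw [vecMul_vecMulVec', smul_vecMul] at h3
  exact smul_vec_eq_zero hz2 h3

theorem rm_ne (x : D.N) (r : R) (hx : x ≠ 0) (hr : r ≠ 0) : rm D x r ≠ 0 := by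
  intro h
  have h1 : ¬ ∀ z : Fin m → R, z ᵥ* A = 0 → z ⬝ᵥ D.sN x = 0 := by
    rw [← D.kN, D.qsN]; exact hx
  push Not at h1
  obtain ⟨z, hz, hz2⟩ := h1
  have h2 : D.qN (fun i => D.sN x i * r) = 0 := h
  have h3 := (D.kN _).mp h2 z hz
  have h4 : z ⬝ᵥ (fun i => D.sN x i * r) = (z ⬝ᵥ D.sN x) * r := by
    simp only [dotProduct, Finset.sum_mul, mul_assoc]
  rw [h4] at h3
  exact (mul_ne_zero hz2 hr) h3

theorem lml_ne (r : R) (l : D.L) (hr : r ≠ 0) (hl : l ≠ 0) : lml D r l ≠ 0 := by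
  intro h
  apply hl
  rw [← D.qsL l, D.kL]
  have h2 : D.qL (r • D.sL l) = 0 := h
  rw [D.kL, smul_vecMul] at h2
  exact smul_vec_eq_zero hr h2

theorem exists_bound (μ : Mo D) : ∃ d, μ ∈ MDs D d := by
  classical
  refine ⟨μ.2.support.sup (fun i => (μ.2 i).support.sup (fun w => w.length + 1)), ?_⟩
  intro i w hw
  by_contra hne
  have h1 : w ∈ (μ.2 i).support := Finsupp.mem_support_iff.mpr hne
  have h2 : i ∈ μ.2.support := by
    rw [Finsupp.mem_support_iff]
    intro h0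
    rw [h0] at hne
    exact hne rfl
  have h3 : w.length + 1 ≤ (μ.2 i).support.sup (fun w => w.length + 1) :=
    Finset.le_sup (f := fun w : List D.β => w.length + 1) h1
  have h4 : (μ.2 i).support.sup (fun w => w.length + 1) ≤
      μ.2.support.sup (fun i => (μ.2 i).support.sup (fun w => w.length + 1)) :=
    Finset.le_sup (f := fun i => (μ.2 i).support.sup (fun w : List D.β => w.length + 1)) h2
  omega

theorem MD_zero (μ : Mo D) (h : μ ∈ MDs D 0) : μ = (μ.1, 0) := by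
  refine Prod.ext rfl ?_
  ext i w
  exact h i w (by omega)

theorem exists_deg (μ : Mo D) (hμ : μ ≠ 0) : ∃ d, μ ∈ MDs D d ∧
    ((d = 0 ∧ μ.1 ≠ 0) ∨ ∃ i w, w.length + 1 = d ∧ μ.2 i w ≠ 0) := by
  classical
  have hex := exists_bound D μ
  refine ⟨Nat.find hex, Nat.find_spec hex, ?_⟩
  rcases Nat.eq_zero_or_pos (Nat.find hex) with h0 | hpos
  · left
    refine ⟨h0, fun h1 => hμ ?_⟩
    have := Nat.find_spec hex
    rw [h0] at this
    rw [MD_zero D μ this, h1]
    rfl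
  · right
    have h1 := Nat.find_min hex (m := Nat.find hex - 1) (by omega)
    rw [mem_MDs] at h1
    push Not at h1
    obtain ⟨i, w, hw, hne⟩ := h1
    refine ⟨i, w, ?_, hne⟩
    by_contra hcon
    exact hne (Nat.find_spec hex i w (by omega))

/-- coefficient vectors in `L` -/
noncomputable def lf (φ : D.N →ₗ[k] k) (w : List D.β) : Mo D →ₗ[k] D.L :=
  (Finsupp.lsum k (fun i => (LinearMap.toSpanSingleton k D.L (D.bL i)) ∘ₗ φ ∘ₗ
    Finsupp.lapply w)) ∘ₗ LinearMap.snd k R (D.ι →₀ T D)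

theorem lf_r (φ : D.N →ₗ[k] k) (w : List D.β) (r : R) : lf D φ w (r, 0) = 0 := by
  simp [lf]

theorem lf_br (φ : D.N →ₗ[k] k) (w : List D.β) (l : D.L) (t : T D) :
    lf D φ w (0, br D l t) = φ (t w) • l :=
  lsum_br D (LinearMap.mk₂ k (fun l t => φ (t w) • l)
    (fun v w t => by rw [smul_add])
    (fun c v t => by rw [smul_comm])
    (fun v t t' => by rw [Finsupp.add_apply, map_add, add_smul])
    (fun c v t => by rw [Finsupp.smul_apply, map_smul, smul_assoc])) l t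

theorem repr_lf (φ : D.N →ₗ[k] k) (w : List D.β) (μ : Mo D) (i : D.ι) :
    D.bL.repr (lf D φ w μ) i = φ (μ.2 i w) := by
  classical
  have h : (Finsupp.lapply i) ∘ₗ (D.bL.repr : D.L →ₗ[k] (D.ι →₀ k)) ∘ₗ lf D φ w =
      φ ∘ₗ (Finsupp.lapply w) ∘ₗ (Finsupp.lapply i) ∘ₗ LinearMap.snd k R (D.ι →₀ T D) := by
    apply M_ext
    · intro r
      show D.bL.repr (lf D φ w (r, 0)) i = φ 0
      rw [lf_r, map_zero, map_zero]; rfl
    · intro i' t
      show D.bL.repr (lf D φ w (0, br D (D.bL i') t)) i = φ (br D (D.bL i') t i w)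
      rw [lf_br, map_smul, D.bL.repr_self, br_apply, Finsupp.smul_apply, Finsupp.smul_apply,
        D.bL.repr_self, map_smul, smul_eq_mul, smul_eq_mul, mul_comm]
  exact congrArg (fun f => f μ) h

theorem lf_lm (φ : D.N →ₗ[k] k) (w : List D.β) (r : R) (μ : Mo D) :
    lf D φ w (lm D r μ) = lml D r (lf D φ w μ) := by
  have h : lf D φ w ∘ₗ (lm D r : Mo D →ₗ[k] Mo D) = lml D r ∘ₗ lf D φ w := by
    apply M_ext
    · intro s
      rw [LinearMap.comp_apply, LinearMap.comp_apply, lm_r, lf_r, lf_r, map_zero]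
    · intro i' t
      rw [LinearMap.comp_apply, LinearMap.comp_apply, lm_br, lf_br, lf_br, map_smul]
  exact congrArg (fun f => f μ) h

theorem act_lf (φ : D.N →ₗ[k] k) (w : List D.β) (x : D.N) (μ : Mo D) (b : D.β) :
    φ (act D x μ (b :: w)) = D.bV.repr (junc D x (lf D φ w μ)) b := by
  have h : φ ∘ₗ (Finsupp.lapply (b :: w)) ∘ₗ act D x =
      (Finsupp.lapply b) ∘ₗ (D.bV.repr : D.V →ₗ[k] (D.β →₀ k)) ∘ₗ junc D x ∘ₗ lf D φ w := by
    apply M_ext
    · intro s
      show φ (act D x (s, 0) (b :: w)) = D.bV.repr (junc D x (lf D φ w (s, 0))) b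
      rw [act_r, lf_r, map_zero, map_zero]
      simp
    · intro i' t
      show φ (act D x (0, br D (D.bL i') t) (b :: w)) =
        D.bV.repr (junc D x (lf D φ w (0, br D (D.bL i') t))) b
      rw [act_br, curly_apply, lf_br, map_smul, map_smul, map_smul, Finsupp.smul_apply,
        smul_eq_mul, smul_eq_mul, mul_comm]
  exact congrArg (fun f => f μ) h

theorem exists_fun (x : D.N) (hx : x ≠ 0) : ∃ φ : D.N →ₗ[k] k, φ x ≠ 0 := by
  by_contra hcon
  push Not at hcon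
  exact hx ((Module.forall_dual_apply_eq_zero_iff k x).mp hcon)

theorem act_top_ne (x : D.N) (hx : x ≠ 0) (d : ℕ) (μ : Mo D) (hd : μ ∈ MDs D d)
    (h : (d = 0 ∧ μ.1 ≠ 0) ∨ ∃ i w, w.length + 1 = d ∧ μ.2 i w ≠ 0) :
    ∃ w, w.length = d ∧ act D x μ w ≠ 0 := by
  rcases h with ⟨h0, h1⟩ | ⟨i, w, hw, hne⟩
  · refine ⟨[], by rw [h0]; rfl, ?_⟩
    rw [h0] at hd
    rw [MD_zero D μ hd, act_r, Finsupp.single_eq_same]
    exact rm_ne D x _ hx h1
  · obtain ⟨φ, hφ⟩ := exists_fun D _ hne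
    have h1 : lf D φ w μ ≠ 0 := by
      intro h0
      apply hφ
      rw [← repr_lf D φ w μ i, h0, map_zero]; rfl
    have h2 := junc_ne D x _ hx h1
    have h3 : ∃ b, D.bV.repr (junc D x (lf D φ w μ)) b ≠ 0 := by
      by_contra hcon
      push Not at hcon
      apply h2
      apply D.bV.repr.injective
      rw [map_zero]
      ext b
      exact hcon b
    obtain ⟨b, hb⟩ := h3
    refine ⟨b :: w, by rw [List.length_cons]; exact hw, ?_⟩
    intro h4
    apply hb
    rw [← act_lf, h4, map_zero]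

theorem lm_ne (r : R) (hr : r ≠ 0) (μ : Mo D) (hμ : μ ≠ 0) : lm D r μ ≠ 0 := by
  obtain ⟨d, hd, h⟩ := exists_deg D μ hμ
  rcases h with ⟨h0, h1⟩ | ⟨i, w, hw, hne⟩
  · rw [h0] at hd
    rw [MD_zero D μ hd, lm_r]
    intro h2
    exact mul_ne_zero hr h1 (congrArg Prod.fst h2)
  · obtain ⟨φ, hφ⟩ := exists_fun D _ hne
    have h1 : lf D φ w μ ≠ 0 := by
      intro h0
      apply hφ
      rw [← repr_lf D φ w μ i, h0, map_zero]; rfl
    have h2 := lml_ne D r _ hr h1
    intro h3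
    apply h2
    rw [← lf_lm, h3, map_zero]

/-- the top form of a product -/
theorem Ps_ne (μ μ' : Mo D) (hμ : μ ≠ 0) (hμ' : μ' ≠ 0) : Ps D μ μ' ≠ 0 := by
  obtain ⟨d, hd, h⟩ := exists_deg D μ hμ
  rcases h with ⟨h0, h1⟩ | ⟨i, w, hw, hne⟩
  · rw [h0] at hd
    rw [MD_zero D μ hd, Ps_r]
    exact lm_ne D _ h1 μ' hμ'
  · obtain ⟨d', hd', h'⟩ := exists_deg D μ' hμ'
    obtain ⟨w2, hw2, hne2⟩ := act_top_ne D _ hne d' μ' hd' h'
    intro h0
    apply hne2
    rw [← Ps_top D w.length d' μ μ' (by rw [hw]; exact hd) hd' i w w2 rfl hw2, h0]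
    rfl

theorem one_ne : ((1, 0) : Mo D) ≠ 0 := by
  intro h
  exact one_ne_zero (congrArg Prod.fst h)

theorem lm_inj (r : R) (h : lm D r = 0) : r = 0 := by
  have := congrArg (fun f => f ((1, 0) : Mo D)) h
  simp only [lm_r, mul_one, LinearMap.zero_apply] at this
  exact congrArg Prod.fst this

theorem Sal_mul_ne (x y : Module.End k (Mo D)) (hx : x ∈ Sal D) (hy : y ∈ Sal D)
    (hx0 : x ≠ 0) (hy0 : y ≠ 0) : x * y ≠ 0 := by
  obtain ⟨μ, rfl⟩ := exists_Ps D x hx
  obtain ⟨μ', rfl⟩ := exists_Ps D y hy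
  have h1 : μ ≠ 0 := by rintro rfl; exact hx0 (map_zero _)
  have h2 : μ' ≠ 0 := by rintro rfl; exact hy0 (map_zero _)
  have h3 := Ps_ne D μ _ h1 (Ps_ne D μ' (1, 0) h2 (one_ne D))
  intro h0
  apply h3
  have := congrArg (fun f => f ((1, 0) : Mo D)) h0
  exact this

/-! ### the left kernel -/

theorem act_cols (c : Fin m → R) :
    (act D (D.qN c) : Mo D →ₗ[k] T D) =
      ∑ q, act D (D.qN (Pi.single q 1)) ∘ₗ (lm D (c q) : Mo D →ₗ[k] Mo D) := by
  have h2 : c = ∑ q, (fun i => (Pi.single q (1 : R) : Fin m → R) i * c q) := by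
    ext i
    rw [Finset.sum_apply]
    simp [Pi.single_apply]
  simp only [act_lm]
  conv_lhs => rw [h2]
  rw [map_sum, map_sum]

theorem eA (q : Fin m) (j : Fin n) : ∑ p, ee D q p * lm D (A p j) = 0 := by
  have h1 : D.qN (fun i => A i j) = 0 := by
    rw [D.kN]
    intro z hz
    exact congrFun hz j
  have h2 := act_cols D (fun i => A i j)
  rw [h1, map_zero] at h2
  refine LinearMap.ext (fun μ => ?_)
  rw [LinearMap.sum_apply]
  have h3 := congrArg (fun f => sg D q (f μ)) h2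
  simp only [LinearMap.sum_apply, map_sum, LinearMap.zero_apply, map_zero] at h3
  rw [LinearMap.zero_apply]
  exact h3.symm

theorem Gk (ν : Fin m → D.N) (hν : ∀ j, ∑ p, rm D (ν p) (A p j) = 0) (q : Fin m) :
    ∑ p, act D (ν p) ∘ₗ ee D p q = act D (ν q) := by
  set P : Matrix (Fin m) (Fin m) R := fun i p => D.sN (ν p) i with hP
  have hK : InK A P := by
    intro z hz
    ext j
    have h1 : ∑ p, rm D (ν p) (A p j) = D.qN (∑ p, fun i => D.sN (ν p) i * A p j) := by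
      rw [map_sum]; rfl
    have h2 := (D.kN _).mp (h1.symm.trans (hν j)) z hz
    have h3 : ((z ᵥ* P) ᵥ* A) j = z ⬝ᵥ (∑ p, fun i => D.sN (ν p) i * A p j) := by
      simp only [vecMul, dotProduct, Finset.sum_apply, Finset.sum_mul, Finset.mul_sum, hP,
        mul_assoc]
      rw [Finset.sum_comm]
    rw [h3, h2]; rfl
  have hcol : ∀ p, act D (ν p) = gP D P ∘ₗ act D (D.qN (Pi.single p 1)) := by
    intro p
    rw [gP_act D P hK, mulVec_single_one]
    have : P.col p = D.sN (ν p) := rfl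
    rw [this, D.qsN]
  rw [hcol q]
  have h1 : (PS D 1 : T D →ₗ[k] T D) = ∑ p, act D (D.qN (Pi.single p 1)) ∘ₗ sg D p := by
    rw [PS_eq]
    apply Finset.sum_congr rfl
    intro p _
    congr 3
    ext i; rw [Matrix.one_apply, Pi.single_apply]
  rw [PS_one] at h1
  refine LinearMap.ext (fun μ => ?_)
  rw [LinearMap.sum_apply]
  have h2 := congrArg (fun f => gP D P (f (act D (D.qN (Pi.single q 1)) μ))) h1
  simp only [LinearMap.sum_apply, map_sum, LinearMap.id_apply, LinearMap.comp_apply] at h2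
  simp only [hcol, LinearMap.comp_apply]
  exact h2.symm

end Pool.Agent.H138R3.NORE
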