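import Pool.Agent.H138R3.NORE.E1e

set_option autoImplicit false

namespace Pool.Agent.H138R3.NORE

open Matrix

variable {k : Type} [Field k] {R : Type} [Ring R] [Algebra k R] [IsDomain R] {m n : ℕ}
  {A : Matrix (Fin m) (Fin n) R} (D : Dat k A)

theorem Ps_single (i : D.ι) (w : List D.β) (x : D.N) :
    Ps D (0, Finsupp.single i (Finsupp.single w x)) =
      RS D (D.sL (D.bL i)) ∘ₗ (thw D w ∘ₗ act D x) := by
  rw [← br_basis, Ps_br, Th_single]

theorem act_one (x : D.N) : act D x (1, 0) [] = x := by
  rw [act_r, Finsupp.single_eq_same]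
  have := rm_q D (D.sN x) 1
  rw [D.qsN] at this
  rw [this]
  simp only [mul_one]
  exact D.qsN x

theorem act_r_nil (x : D.N) (r : R) : act D x (r, 0) [] = rm D x r := by
  rw [act_r, Finsupp.single_eq_same]

theorem r_mem (r : R) : ((r, 0) : Mo D) ∈ MDs D 0 := fun _ _ _ => rfl

/-- rows in the left kernel of `A` are fixed by `e` -/
theorem ker_left : ∀ (d : ℕ) (μ : Fin m → Mo D), (∀ p, μ p ∈ MDs D d) →
    (∀ j, ∑ p, Ps D (μ p) * lm D (A p j) = 0) →
    ∀ q, ∑ p, Ps D (μ p) * ee D p q = Ps D (μ q) := by
  intro d
  induction d with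
  | zero =>
    intro μ hμ h q
    have e0 : ∀ p, μ p = ((μ p).1, 0) := fun p => MD_zero D _ (hμ p)
    have e1 : ∀ p, Ps D (μ p) = lm D (μ p).1 := by
      intro p
      conv_lhs => rw [e0 p]
      rw [Ps_r]
    have hz : (fun p => (μ p).1) ᵥ* A = 0 := by
      ext j
      apply lm_inj D
      rw [← h j]
      simp only [vecMul, dotProduct, map_sum, map_mul, e1]
    have h1 := zb_act D _ hz (Pi.single q 1)
    rw [← RS_Z D _ hz, dotProduct_single_one] at h1
    rw [e1 q, ← h1]
    refine LinearMap.ext (fun t => ?_)
    rw [LinearMap.sum_apply, LinearMap.comp_apply, RS_eq, LinearMap.sum_apply]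
    apply Finset.sum_congr rfl
    intro p _
    rw [e1 p]
    rfl
  | succ a ih =>
    intro μ hμ h q
    classical
    -- relation for the top coefficients
    have htop : ∀ (i : D.ι) (w : List D.β), w.length = a → ∀ j,
        ∑ p, rm D ((μ p).2 i w) (A p j) = 0 := by
      intro i w hw j
      have h1 := congrArg (fun f => (f ((1, 0) : Mo D)).2 i w) (h j)
      simp only [LinearMap.sum_apply] at h1
      have h2 : ∀ p, ((Ps D (μ p) * lm D (A p j)) ((1, 0) : Mo D)).2 i w =
          rm D ((μ p).2 i w) (A p j) := by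
        intro p
        rw [Module.End.mul_apply, lm_r, mul_one]
        have h3 := Ps_top D a 0 (μ p) (A p j, 0) (hμ p) (r_mem D _) i w [] hw rfl
        rw [List.append_nil, act_r_nil] at h3
        exact h3
      have h4 : (∑ p, (Ps D (μ p) * lm D (A p j)) ((1, 0) : Mo D)).2 i w =
          ∑ p, ((Ps D (μ p) * lm D (A p j)) ((1, 0) : Mo D)).2 i w := by
        rw [Prod.snd_sum, Finsupp.finsetSum_apply, Finsupp.finsetSum_apply]
      rw [h4] at h1
      simp only [h2] at h1
      exact h1
    set F1 : Finset D.ι := Finset.univ.biUnion (fun p => (μ p).2.support) with hF1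
    set F2 : Finset (List D.β) := ((Finset.univ.biUnion (fun p => F1.biUnion
      (fun i => ((μ p).2 i).support))).filter (fun w => w.length = a)) with hF2
    set μt : Fin m → Mo D := fun p => ∑ i ∈ F1, ∑ w ∈ F2,
      ((0, Finsupp.single i (Finsupp.single w ((μ p).2 i w))) : Mo D) with hμt
    have hPst : ∀ p, Ps D (μt p) = ∑ i ∈ F1, ∑ w ∈ F2,
        RS D (D.sL (D.bL i)) ∘ₗ (thw D w ∘ₗ act D ((μ p).2 i w)) := by
      intro p
      simp only [hμt, map_sum, Ps_single]
    have hfix : ∀ q, ∑ p, Ps D (μt p) * ee D p q = Ps D (μt q) := by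
      intro q
      simp only [hPst]
      refine LinearMap.ext (fun t => ?_)
      simp only [LinearMap.sum_apply, Module.End.mul_apply, LinearMap.comp_apply]
      rw [Finset.sum_comm]
      apply Finset.sum_congr rfl
      intro i _
      rw [Finset.sum_comm]
      apply Finset.sum_congr rfl
      intro w hw
      have hwa : w.length = a := (Finset.mem_filter.mp hw).2
      have h1 := Gk D (fun p => (μ p).2 i w) (htop i w hwa) q
      have h2 := congrArg (fun f => RS D (D.sL (D.bL i)) (thw D w (f t))) h1
      simp only [LinearMap.sum_apply, map_sum, LinearMap.comp_apply] at h2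
      exact h2
    have hμt2 : ∀ p i w, (μt p).2 i w = if w.length = a then (μ p).2 i w else 0 := by
      intro p i w
      simp only [hμt]
      rw [Prod.snd_sum, Finsupp.finsetSum_apply, Finsupp.finsetSum_apply]
      simp only [Prod.snd_sum, Finsupp.finsetSum_apply]
      have h5 : ∀ i' ∈ F1, ∑ w' ∈ F2, (Finsupp.single i' (Finsupp.single w' ((μ p).2 i' w')) :
          D.ι →₀ T D) i w = if i' = i then (if w ∈ F2 then (μ p).2 i w else 0) else 0 := by
        intro i' _
        by_cases hi : i' = i
        · subst hi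
          simp only [Finsupp.single_eq_same, if_true]
          simp [Finsupp.single_apply, Finset.sum_ite_eq']
        · rw [if_neg hi]
          apply Finset.sum_eq_zero
          intro w' _
          rw [Finsupp.single_apply, if_neg hi]; rfl
      rw [Finset.sum_congr rfl h5, Finset.sum_ite_eq']
      by_cases hne : (μ p).2 i w = 0
      · rw [hne]; simp
      · have hw1 : w ∈ ((μ p).2 i).support := Finsupp.mem_support_iff.mpr hne
        have hi1 : i ∈ (μ p).2.support := by
          rw [Finsupp.mem_support_iff]
          intro h0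
          rw [h0] at hne
          exact hne rfl
        have hiF : i ∈ F1 := Finset.mem_biUnion.mpr ⟨p, Finset.mem_univ _, hi1⟩
        rw [if_pos hiF]
        by_cases hwa : w.length = a
        · rw [if_pos hwa, if_pos]
          rw [hF2, Finset.mem_filter]
          exact ⟨Finset.mem_biUnion.mpr ⟨p, Finset.mem_univ _,
            Finset.mem_biUnion.mpr ⟨i, hiF, hw1⟩⟩, hwa⟩
        · rw [if_neg hwa, if_neg]
          intro hmem
          exact hwa (Finset.mem_filter.mp hmem).2
    have hlow : ∀ p, μ p - μt p ∈ MDs D a := by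
      intro p i w hw
      rw [Prod.snd_sub, Finsupp.sub_apply, Finsupp.sub_apply, hμt2]
      by_cases hwa : w.length = a
      · rw [if_pos hwa, sub_self]
      · rw [if_neg hwa, sub_zero]
        exact hμ p i w (by omega)
    have hsm : ∀ (p : Fin m) (z : Module.End k (Mo D)), Ps D (μ p) * z =
        Ps D (μ p - μt p) * z + Ps D (μt p) * z := by
      intro p z
      rw [← add_mul, ← map_add, sub_add_cancel]
    have hrel : ∀ j, ∑ p, Ps D (μ p - μt p) * lm D (A p j) = 0 := by
      intro j
      have h8 : ∑ p, Ps D (μ p) * lm D (A p j) =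
          ∑ p, Ps D (μ p - μt p) * lm D (A p j) + ∑ p, Ps D (μt p) * lm D (A p j) := by
        rw [← Finset.sum_add_distrib]
        exact Finset.sum_congr rfl (fun p _ => hsm p _)
      have h10 : ∑ p, Ps D (μt p) * lm D (A p j) = 0 := by
        have h6 : ∀ p, Ps D (μt p) * lm D (A p j) =
            ∑ q, Ps D (μt q) * (ee D q p * lm D (A p j)) := by
          intro p
          rw [← hfix p, Finset.sum_mul]
          simp only [mul_assoc]
        simp only [h6]
        rw [Finset.sum_comm]
        apply Finset.sum_eq_zero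
        intro q _
        rw [← Finset.mul_sum, eA, mul_zero]
      rw [h10, add_zero, h j] at h8
      exact h8.symm
    have h7 := ih (fun p => μ p - μt p) hlow hrel q
    have h8 : ∑ p, Ps D (μ p) * ee D p q =
        ∑ p, Ps D (μ p - μt p) * ee D p q + ∑ p, Ps D (μt p) * ee D p q := by
      rw [← Finset.sum_add_distrib]
      exact Finset.sum_congr rfl (fun p _ => hsm p _)
    rw [h8, hfix q, h7, ← map_add, sub_add_cancel]

/-- split right kernels are preserved -/
theorem pres {s t : ℕ} (B : Matrix (Fin s) (Fin t) R) (g : Matrix (Fin t) (Fin t) R)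
    (hg : ∀ y : Fin t → R, B *ᵥ y = 0 → g *ᵥ y = y) :
    ∀ (d : ℕ) (μ : Fin t → Mo D), (∀ j, μ j ∈ MDs D d) →
      (∀ i, ∑ j, lm D (B i j) * Ps D (μ j) = 0) →
      (∀ i, ∑ j, lm D (g i j) * Ps D (μ j) = 0) → ∀ j, μ j = 0 := by
  intro d
  induction d with
  | zero =>
    intro μ hμ hB hgm j
    have e0 : ∀ p, μ p = ((μ p).1, 0) := fun p => MD_zero D _ (hμ p)
    have e1 : ∀ p, Ps D (μ p) = lm D (μ p).1 := by
      intro p
      conv_lhs => rw [e0 p]
      rw [Ps_r]
    have h1 : B *ᵥ (fun j => (μ j).1) = 0 := by
      ext i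
      apply lm_inj D
      rw [← hB i]
      simp only [mulVec, dotProduct, map_sum, map_mul, e1]
    have h2 : g *ᵥ (fun j => (μ j).1) = 0 := by
      ext i
      apply lm_inj D
      rw [← hgm i]
      simp only [mulVec, dotProduct, map_sum, map_mul, e1]
    have h3 := (hg _ h1).symm.trans h2
    rw [e0 j]
    have := congrFun h3 j
    simp only [Pi.zero_apply] at this
    rw [this]; rfl
  | succ a ih =>
    intro μ hμ hB hgm
    apply ih μ _ hB hgm
    intro j i w hw
    by_cases hwa : w.length = a
    swap
    · exact hμ j i w (by omega)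
    by_contra hne
    obtain ⟨φ, hφ⟩ := exists_fun D _ hne
    -- coefficients
    set l : Fin t → D.L := fun j => lf D φ w (Ps D (μ j) (1, 0)) with hl
    have hrepr : ∀ j i, D.bL.repr (l j) i = φ ((μ j).2 i w) := by
      intro j i
      rw [hl]
      simp only
      rw [repr_lf]
      have h3 := Ps_top D a 0 (μ j) (1, 0) (hμ j) (r_mem D _) i w [] hwa rfl
      rw [List.append_nil, act_one] at h3
      rw [h3]
    set Λ : Matrix (Fin t) (Fin m) R := fun j => D.sL (l j) with hΛ
    have hcomb : ∀ b : Fin t → R, ∑ j, lm D (b j) * Ps D (μ j) = 0 →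
        (∑ j, b j • Λ j) ᵥ* A = 0 := by
      intro b hb
      rw [← D.kL]
      have h1 := congrArg (fun f => lf D φ w (f ((1, 0) : Mo D))) hb
      simp only [LinearMap.sum_apply, map_sum, Module.End.mul_apply, lf_lm, LinearMap.zero_apply,
        map_zero] at h1
      rw [map_sum]
      exact h1
    have hBL : B * (Λ * A) = 0 := by
      rw [← Matrix.mul_assoc]
      ext i c
      have h1 := congrFun (hcomb (B i) (hB i)) c
      have h2 : (∑ j, B i j • Λ j) = (B * Λ) i := by
        ext a'
        simp [Matrix.mul_apply, Finset.sum_apply]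
      rw [h2] at h1
      exact h1
    have hgL : g * (Λ * A) = 0 := by
      rw [← Matrix.mul_assoc]
      ext i c
      have h1 := congrFun (hcomb (g i) (hgm i)) c
      have h2 : (∑ j, g i j • Λ j) = (g * Λ) i := by
        ext a'
        simp [Matrix.mul_apply, Finset.sum_apply]
      rw [h2] at h1
      exact h1
    have hΛA : Λ * A = 0 := by
      ext i c
      have h1 : B *ᵥ (fun j => (Λ * A) j c) = 0 := by
        ext i'
        exact congrFun (congrFun hBL i') c
      have h2 := congrFun (hg _ h1) i
      have h3 : (g *ᵥ (fun j => (Λ * A) j c)) i = 0 := congrFun (congrFun hgL i) c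
      rw [h3] at h2
      exact h2.symm
    apply hφ
    rw [← hrepr]
    have h4 : l j = 0 := by
      rw [← D.qsL (l j), D.kL]
      exact congrFun hΛA j
    rw [h4, map_zero]; rfl

end Pool.Agent.H138R3.NORE
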